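import Pool.Agent.H925R2.Ext

/-!
# Eigenclasses in exterior algebras generated by degree two classes and determinant classes
-/

set_option autoImplicit false
set_option linter.all false

namespace Pool.Agent.L5helper29.AS

open Module
open Pool.Agent.H925R2

section ext

variable {K V : Type*} [Field K] [AddCommGroup V] [Module K V]

open ExteriorAlgebra

/-- eigenclasses are in an algebra as soon as the eigenmonomials are -/
theorem mem_adjoin_gen (F : V →ₗ[K] V) (q : K) (E : Set K)
    (hspan : Submodule.span K {v : V | ∃ μ ∈ E, F v = μ • v} = ⊤) (m s : ℕ)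
    (S : Subalgebra K (ExteriorAlgebra K V))
    (hmon : ∀ L : List (V × K), L.length = 2 * m → (∀ e ∈ L, e.2 ∈ E ∧ F e.1 = e.2 • e.1) →
      (L.map Prod.snd).prod ^ s = (q ^ m) ^ s → (L.map (fun e => ι K e.1)).prod ∈ S)
    (x : ExteriorAlgebra K V) (hx : x ∈ ⋀[K]^(2 * m) V)
    (hFx : ExteriorAlgebra.map (F ^ s) x = (q ^ m) ^ s • x) : x ∈ S := by
  classical
  set E' : Set V := {v : V | ∃ μ ∈ E, F v = μ • v} with hs
  have hsp := exteriorPower.ιMulti_span_fixedDegree_of_span_eq_top K (2 * m) V hspan
  set T : Set (ExteriorAlgebra K V) :=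
    {y | ∃ a : Fin (2 * m) → V, (∀ j, a j ∈ E') ∧ ExteriorAlgebra.ιMulti K (2 * m) a = y} with hT
  have hTspan : x ∈ Submodule.span K T := by
    rw [← hsp] at hx
    refine Submodule.span_mono ?_ hx
    rintro _ ⟨a, ha, rfl⟩
    exact ⟨a, fun j => ha ⟨j, rfl⟩, rfl⟩
  have hpow : ∀ (v : V) (μ : K), F v = μ • v → (F ^ s) v = μ ^ s • v := by
    intro v μ h
    clear hFx hmon
    induction s with
    | zero => simp
    | succ s ih => rw [pow_succ', Module.End.mul_apply, ih, map_smul, h, smul_smul, pow_succ]
  have hTeig : ∀ a : Fin (2 * m) → V, (∀ j, a j ∈ E') → ∃ μ : Fin (2 * m) → K,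
      (∀ j, μ j ∈ E ∧ F (a j) = μ j • a j) ∧
      ExteriorAlgebra.map (F ^ s) (ExteriorAlgebra.ιMulti K (2 * m) a) =
        (∏ j, μ j) ^ s • ExteriorAlgebra.ιMulti K (2 * m) a := by
    intro a ha
    choose μ hμ1 hμ2 using ha
    refine ⟨μ, fun j => ⟨hμ1 j, hμ2 j⟩, ?_⟩
    rw [ExteriorAlgebra.map_apply_ιMulti]
    have : (⇑(F ^ s) ∘ a) = fun j => μ j ^ s • a j := by
      funext j
      exact hpow _ _ (hμ2 j)
    rw [this, ← Finset.prod_pow]
    exact AlternatingMap.map_smul_univ _ _ _
  have hmem := mem_span_eigen (ExteriorAlgebra.map (F ^ s)).toLinearMap T (by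
    rintro t ⟨a, ha, rfl⟩
    obtain ⟨μ, _, h⟩ := hTeig a ha
    exact ⟨_, h⟩) ((q ^ m) ^ s) x hTspan hFx
  have hle : Submodule.span K
      {t ∈ T | (ExteriorAlgebra.map (F ^ s)).toLinearMap t = (q ^ m) ^ s • t} ≤
      Subalgebra.toSubmodule S := by
    rw [Submodule.span_le]
    rintro t ⟨⟨a, ha, rfl⟩, ht⟩
    obtain ⟨μ, hμ, h⟩ := hTeig a ha
    by_cases h0 : ExteriorAlgebra.ιMulti K (2 * m) a = 0
    · rw [h0]; exact Submodule.zero_mem _
    have hprod : (∏ j, μ j) ^ s = (q ^ m) ^ s := by
      have h1 : (∏ j, μ j) ^ s • ExteriorAlgebra.ιMulti K (2 * m) a =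
        (q ^ m) ^ s • ExteriorAlgebra.ιMulti K (2 * m) a := by rw [← h]; exact ht
      exact smul_left_injective K h0 h1
    have h3' : (List.ofFn fun j => (a j, μ j)).map Prod.snd = List.ofFn μ := by
      rw [List.map_ofFn]; rfl
    have h2 := hmon (List.ofFn fun j => (a j, μ j)) (by simp) (by
      intro e he
      rw [List.mem_ofFn] at he
      obtain ⟨j, rfl⟩ := he
      exact hμ j) (by rw [h3', List.prod_ofFn, hprod])
    have h3 : (List.ofFn fun j => (a j, μ j)).map (fun e => ι K e.1) =
        List.ofFn fun j => ι K (a j) := by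
      rw [List.map_ofFn]; rfl
    rw [h3] at h2
    rw [ExteriorAlgebra.ιMulti_apply]
    exact h2
  exact hle hmem

/-- reordering a product of vectors changes it by a scalar -/
theorem prod_perm {α : Type*} (f : α → V) {l l' : List α} (h : l.Perm l') :
    ∃ c : K, (l.map (fun w => ι K (f w))).prod = c • (l'.map (fun w => ι K (f w))).prod := by
  induction h with
  | nil => exact ⟨1, by simp⟩
  | cons a _ ih =>
    obtain ⟨c, hc⟩ := ih
    refine ⟨c, ?_⟩
    rw [List.map_cons, List.prod_cons, List.map_cons, List.prod_cons, hc, mul_smul_comm]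
  | swap a b l =>
    refine ⟨-1, ?_⟩
    rw [List.map_cons, List.prod_cons, List.map_cons, List.prod_cons, List.map_cons, List.prod_cons,
      List.map_cons, List.prod_cons, ← mul_assoc, ← mul_assoc]
    have h : ι K (f b) * ι K (f a) = - (ι K (f a) * ι K (f b)) :=
      eq_neg_of_add_eq_zero_left (ι_add_mul_swap (f b) (f a))
    rw [h, neg_mul, neg_smul, one_smul]
  | trans _ _ ih1 ih2 =>
    obtain ⟨c, hc⟩ := ih1
    obtain ⟨c', hc'⟩ := ih2
    exact ⟨c * c', by rw [hc, hc', smul_smul]⟩

/-- the determinant monomials: products of eigenvectors of `F`, one for each element of the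
multiset `S` of eigenvalues -/
def detC (F : V →ₗ[K] V) (S : Multiset K) : Set (ExteriorAlgebra K V) :=
  {w | ∃ L : List (V × K), ((L.map Prod.snd : List K) : Multiset K) = S ∧
    (∀ e ∈ L, F e.1 = e.2 • e.1) ∧ w = (L.map (fun e => ι K e.1)).prod}

/-- extracting from a list the elements with given second components -/
theorem extract {α β : Type*} [DecidableEq β] (S : Multiset β) :
    ∀ (L : List (α × β)), S ≤ ((L.map Prod.snd : List β) : Multiset β) →
    ∃ L₁ L₂ : List (α × β), L.Perm (L₁ ++ L₂) ∧ ((L₁.map Prod.snd : List β) : Multiset β) = S := by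
  induction S using Multiset.induction_on with
  | empty => intro L _; exact ⟨[], L, by simp, by simp⟩
  | cons b S ih =>
    intro L hL
    have h1 : b ∈ L.map Prod.snd := by
      have := Multiset.mem_of_le hL (Multiset.mem_cons_self b S)
      exact Multiset.mem_coe.1 this
    obtain ⟨e, he, hb⟩ := List.mem_map.1 h1
    obtain ⟨L1, L2, hLL⟩ := List.append_of_mem he
    have h2 : L.Perm (e :: (L1 ++ L2)) := by
      rw [hLL]
      exact List.perm_middle
    have h3 : S ≤ (((L1 ++ L2).map Prod.snd : List β) : Multiset β) := by
      have h4 : ((L.map Prod.snd : List β) : Multiset β) =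
          b ::ₘ (((L1 ++ L2).map Prod.snd : List β) : Multiset β) := by
        rw [Multiset.coe_eq_coe.2 (h2.map Prod.snd), List.map_cons, hb, Multiset.cons_coe]
      rw [h4] at hL
      exact (Multiset.cons_le_cons_iff b).1 hL
    obtain ⟨M1, M2, hM, hS⟩ := ih _ h3
    refine ⟨e :: M1, M2, h2.trans (by rw [List.cons_append]; exact hM.cons e), ?_⟩
    rw [List.map_cons, ← Multiset.cons_coe, hS, hb]

/-- balanced lists have even length -/
theorem even_of_balanced [DecidableEq K] (q : K) (E : Set K) (hE : ∀ x ∈ E, x ≠ 0 ∧ q / x ≠ x)
    (hEq : ∀ x ∈ E, q / x ∈ E ∧ q / (q / x) = x)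
    (l : List K) (hl : ∀ x ∈ l, x ∈ E) (h : ∀ x ∈ E, l.count x = l.count (q / x)) :
    Even l.length := by
  have h1 : l.length = ∑ x ∈ l.toFinset, l.count x := by
    have := Multiset.toFinset_sum_count_eq (l : Multiset K)
    simpa using this.symm
  rw [h1, even_iff_two_dvd, ← ZMod.natCast_eq_zero_iff]
  push_cast
  refine Finset.sum_involution (fun x _ => q / x) ?_ ?_ ?_ ?_
  · intro x hx
    have hxE := hl x (List.mem_toFinset.1 hx)
    rw [← h x hxE]
    have : (2 : ZMod 2) = 0 := rfl
    linear_combination (l.count x : ZMod 2) * this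
  · intro x hx _
    exact (hE x (hl x (List.mem_toFinset.1 hx))).2
  · intro x hx
    have hxE := hl x (List.mem_toFinset.1 hx)
    rw [List.mem_toFinset, ← List.count_pos_iff, ← h x hxE, List.count_pos_iff]
    exact List.mem_toFinset.1 hx
  · intro x hx
    exact (hEq x (hl x (List.mem_toFinset.1 hx))).2

section blocks

variable [DecidableEq K] {J : Type*} (F : V →ₗ[K] V) (q : K) (B : J → Finset K)

/-- the determinant monomials of `B j` and of the dual set -/
def blk (j : J) : Set (ExteriorAlgebra K V) :=
  detC F (B j).val ∪ detC F ((B j).val.map (fun x => q / x))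

/-- the generators: eigenclasses of degree two, determinant monomials of even degree, and products
of two determinant monomials of odd degree -/
def gens : Set (ExteriorAlgebra K V) :=
  deg2 F q ∪ {w | ∃ j, Even (B j).card ∧ w ∈ blk F q B j} ∪
    {w | ∃ i j, Odd (B i).card ∧ Odd (B j).card ∧ ∃ u ∈ blk F q B i, ∃ v ∈ blk F q B j, w = u * v}

/-- **Monomials whose exponents differ by constants.** -/
theorem mono_mem (hq : q ≠ 0) (h0 : ∀ j, ∀ x ∈ B j, x ≠ 0) (hne : ∀ j, (B j).Nonempty)
    (hD1 : ∀ i j, ∀ x, x ∈ B i → x ∈ B j → i = j)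
    (hD2 : ∀ i j, ∀ x, x ∈ B i → q / x ∉ B j) :
    ∀ (n : ℕ) (L : List (V × K)), L.length = n →
      (∀ e ∈ L, (∃ j, e.2 ∈ B j ∨ q / e.2 ∈ B j) ∧ F e.1 = e.2 • e.1) →
      (∃ t : J → ℤ, ∀ j, ∀ x ∈ B j,
        ((L.map Prod.snd).count x : ℤ) - ((L.map Prod.snd).count (q / x) : ℤ) = t j) →
      (Even L.length → (L.map (fun e => ι K e.1)).prod ∈ Algebra.adjoin K (gens F q B)) ∧
      (Odd L.length → ∀ j, Odd (B j).card → ∀ b ∈ blk F q B j,
        b * (L.map (fun e => ι K e.1)).prod ∈ Algebra.adjoin K (gens F q B)) := by
  classical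
  intro n
  induction n using Nat.strong_induction_on with
  | _ n ih =>
    intro L hLn hL ⟨t, ht⟩
    set E : Set K := {x | ∃ j, x ∈ B j ∨ q / x ∈ B j} with hEdef
    have hx0 : ∀ x ∈ E, x ≠ 0 := by
      rintro x ⟨j, hj | hj⟩
      · exact h0 j x hj
      · rintro rfl
        rw [div_zero] at hj
        exact h0 j 0 hj rfl
    have hqq : ∀ x : K, x ≠ 0 → q / (q / x) = x := by
      intro x hx
      field_simp
    by_cases hbal : ∀ j, t j = 0
    · -- balanced
      have hE : ∀ x ∈ E, x ≠ 0 ∧ q / x ≠ x := by
        intro x hx
        refine ⟨hx0 x hx, ?_⟩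
        intro h
        obtain ⟨j, hj | hj⟩ := hx
        · exact hD2 j j x hj (by rw [h]; exact hj)
        · exact hD2 j j _ hj (by rw [hqq x (hx0 x ⟨j, Or.inr hj⟩), ← h]; exact hj)
      have hb : ∀ x ∈ E, (L.map Prod.snd).count x = (L.map Prod.snd).count (q / x) := by
        rintro x ⟨j, hj | hj⟩
        · have := ht j x hj
          rw [hbal] at this
          omega
        · have := ht j _ hj
          rw [hbal, hqq x (hx0 x ⟨j, Or.inr hj⟩)] at this
          omega
      constructor
      · intro _
        have h1 := prod_mem_adjoin F q E hE L.length L rfl (fun e he => hL e he) hb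
        refine Algebra.adjoin_mono ?_ h1
        intro w hw
        exact Or.inl (Or.inl hw)
      · intro hodd
        exfalso
        have h1 := even_of_balanced q E hE (fun x hx => ⟨by
          obtain ⟨j, hj | hj⟩ := hx
          · exact ⟨j, Or.inr (by rw [hqq x (h0 j x hj)]; exact hj)⟩
          · exact ⟨j, Or.inl hj⟩, hqq x (hx0 x hx)⟩) (L.map Prod.snd) (by
          intro x hx
          obtain ⟨e, he, rfl⟩ := List.mem_map.1 hx
          exact (hL e he).1) hb
        rw [List.length_map] at h1
        exact (Nat.not_even_iff_odd.2 hodd) h1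
    · -- extract a block
      push Not at hbal
      obtain ⟨j, hj⟩ := hbal
      -- the multiset of the block
      obtain ⟨S, hSle, hScard, hSblk, hScount⟩ : ∃ S : Multiset K,
          S ≤ ((L.map Prod.snd : List K) : Multiset K) ∧ S.card = (B j).card ∧
          detC F S ⊆ blk F q B j ∧
          (∃ t' : J → ℤ, ∀ i, ∀ x ∈ B i, (S.count x : ℤ) - (S.count (q / x) : ℤ) = t' i) := by
        rcases lt_or_gt_of_ne hj with hneg | hpos
        · refine ⟨(B j).val.map (fun x => q / x), ?_, by simp, fun w hw => Or.inr hw, ?_⟩
          · have hnd : ((B j).val.map (fun x => q / x)).Nodup := by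
              refine (Multiset.nodup_map_iff_inj_on (B j).nodup).2 ?_
              intro x hx y hy hxy
              have e1 := h0 j x hx
              have e2 := h0 j y hy
              rw [← hqq x e1, hxy, hqq y e2]
            rw [Multiset.le_iff_subset hnd]
            intro y hy
            rw [Multiset.mem_map] at hy
            obtain ⟨x, hx, rfl⟩ := hy
            have h1 := ht j x hx
            rw [Multiset.mem_coe, ← List.count_pos_iff]
            omega
          · refine ⟨fun i => if i = j then -1 else 0, ?_⟩
            intro i x hx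
            have hc1 : ((B j).val.map (fun x => q / x)).count x = 0 := by
              rw [Multiset.count_eq_zero]
              intro hmem
              rw [Multiset.mem_map] at hmem
              obtain ⟨y, hy, rfl⟩ := hmem
              exact hD2 j i y hy hx
            rw [hc1]
            by_cases hij : i = j
            · subst hij
              have hc2 : ((B i).val.map (fun x => q / x)).count (q / x) = 1 := by
                apply Multiset.count_eq_one_of_mem
                · refine (Multiset.nodup_map_iff_inj_on (B i).nodup).2 ?_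
                  intro x hx y hy hxy
                  rw [← hqq x (h0 i x hx), hxy, hqq y (h0 i y hy)]
                · exact Multiset.mem_map_of_mem _ hx
              rw [hc2]
              simp
            · have hc2 : ((B j).val.map (fun x => q / x)).count (q / x) = 0 := by
                rw [Multiset.count_eq_zero]
                intro hmem
                rw [Multiset.mem_map] at hmem
                obtain ⟨y, hy, hxy⟩ := hmem
                have : y = x := by rw [← hqq y (h0 j y hy), hxy, hqq x (h0 i x hx)]
                subst this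
                exact hij (hD1 i j y hx hy)
              rw [hc2]
              simp [hij]
        · refine ⟨(B j).val, ?_, rfl, fun w hw => Or.inl hw, ?_⟩
          · rw [Multiset.le_iff_subset (B j).nodup]
            intro x hx
            have h1 := ht j x hx
            rw [Multiset.mem_coe, ← List.count_pos_iff]
            omega
          · refine ⟨fun i => if i = j then 1 else 0, ?_⟩
            intro i x hx
            have hc1 : (B j).val.count (q / x) = 0 := by
              rw [Multiset.count_eq_zero]
              exact hD2 i j x hx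
            rw [hc1]
            by_cases hij : i = j
            · subst hij
              rw [Multiset.count_eq_one_of_mem (B i).nodup hx]
              simp
            · have hc2 : (B j).val.count x = 0 := by
                rw [Multiset.count_eq_zero]
                intro hmem
                exact hij (hD1 i j x hx hmem)
              rw [hc2]
              simp [hij]
      obtain ⟨t', ht'⟩ := hScount
      obtain ⟨L₁, L₂, hperm, hL₁⟩ := extract S L hSle
      have hlen : L.length = L₁.length + L₂.length := by
        rw [hperm.length_eq, List.length_append]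
      have hL₁len : L₁.length = (B j).card := by
        have := congrArg Multiset.card hL₁
        rw [Multiset.coe_card, List.length_map, hScard] at this
        exact this
      have hcardpos : 0 < (B j).card := Finset.card_pos.2 (hne j)
      have hmemL : ∀ e, e ∈ L₁ ∨ e ∈ L₂ → e ∈ L := by
        intro e he
        rw [hperm.mem_iff, List.mem_append]
        exact he
      have hw : (L₁.map (fun e => ι K e.1)).prod ∈ blk F q B j :=
        hSblk ⟨L₁, hL₁, fun e he => (hL e (hmemL e (Or.inl he))).2, rfl⟩
      obtain ⟨c, hc⟩ := prod_perm (K := K) (fun e : V × K => e.1) hperm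
      obtain ⟨c', hc'⟩ := prod_perm (K := K) (fun e : V × K => e.1)
        (hperm.trans List.perm_append_comm)
      rw [List.map_append, List.prod_append] at hc hc'
      have hrec := ih L₂.length (by omega) L₂ rfl
        (fun e he => hL e (hmemL e (Or.inr he))) ⟨fun i => t i - t' i, by
          intro i x hx
          have h1 := ht i x hx
          have h2 := ht' i x hx
          have h3 : ∀ y : K, (L.map Prod.snd).count y = S.count y + (L₂.map Prod.snd).count y := by
            intro y
            rw [(hperm.map Prod.snd).count_eq, List.map_append, List.count_append, ← hL₁,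
              Multiset.coe_count]
          rw [h3, h3] at h1
          push_cast at h1
          linarith⟩
      rcases Nat.even_or_odd (B j).card with hev | hod
      · have hwS : (L₁.map (fun e => ι K e.1)).prod ∈ Algebra.adjoin K (gens F q B) :=
          Algebra.subset_adjoin (Or.inl (Or.inr ⟨j, hev, hw⟩))
        constructor
        · intro hLe
          rw [hc]
          refine Subalgebra.smul_mem _ (Subalgebra.mul_mem _ hwS (hrec.1 ?_)) c
          rw [hlen, hL₁len] at hLe
          exact (Nat.even_add.1 hLe).1 hev
        · intro hLo i hi b hb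
          rw [hc', mul_smul_comm, ← mul_assoc]
          refine Subalgebra.smul_mem _ (Subalgebra.mul_mem _ (hrec.2 ?_ i hi b hb) hwS) c'
          rw [hlen, hL₁len, Nat.odd_add] at hLo
          by_contra hne'
          rw [Nat.not_odd_iff_even] at hne'
          exact (Nat.not_even_iff_odd.2 (hLo.2 hne')) hev
      · constructor
        · intro hLe
          rw [hc]
          refine Subalgebra.smul_mem _ (hrec.2 ?_ j hod _ hw) c
          rw [hlen, hL₁len, Nat.even_add'] at hLe
          exact hLe.1 hod
        · intro hLo i hi b hb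
          rw [hc, mul_smul_comm, ← mul_assoc]
          refine Subalgebra.smul_mem _ (Subalgebra.mul_mem _ ?_ (hrec.1 ?_)) c
          · exact Algebra.subset_adjoin (Or.inr ⟨i, j, hi, hod, b, hb, _, hw, rfl⟩)
          · rw [hlen, hL₁len, Nat.odd_add] at hLo
            exact hLo.1 hod

end blocks

end ext

end Pool.Agent.L5helper29.AS
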