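import Pool.Agent.L5helper29.AS.RelC
import Pool.Agent.L5helper29.AS.ExtAlg

/-!
# Tate classes from the Galois action on the eigenvalues
-/

set_option autoImplicit false
set_option linter.all false

namespace Pool.Agent.L5helper29.AS

open Finset

section

variable {J : Type*} [Fintype J] [DecidableEq J] (B : J → Finset ℂ) (q : ℂ)

lemma ind_prod (hq : q ≠ 0) (h0 : ∀ j, ∀ x ∈ B j, x ≠ 0)
    (hD1 : ∀ i j, ∀ x, x ∈ B i → x ∈ B j → i = j)
    (hD2 : ∀ i j, ∀ x, x ∈ B i → q / x ∉ B j) (a : ℂ) (ha : ∃ j, a ∈ B j ∨ q / a ∈ B j) :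
    ∏ j, ∏ x : B j, ((x : ℂ) ^ (if a = x then 1 else 0) * (q / x) ^ (if a = q / x then 1 else 0)) =
      a := by
  classical
  have hqq : ∀ x : ℂ, x ≠ 0 → q / (q / x) = x := by
    intro x hx
    field_simp
  obtain ⟨j, hj | hj⟩ := ha
  · have h2 : ∀ (i : J) (x : B i), a ≠ q / x := by
      intro i x h
      exact hD2 i j x x.2 (h ▸ hj)
    rw [prod_eq_single j, prod_eq_single (⟨a, hj⟩ : B j)]
    · rw [if_pos rfl, if_neg (h2 j _)]
      simp
    · intro x _ hx
      rw [if_neg, if_neg (h2 j x)]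
      · simp
      · intro h
        exact hx (Subtype.ext h.symm)
    · intro h
      exact absurd (mem_univ _) h
    · intro i _ hi
      apply prod_eq_one
      intro x _
      rw [if_neg, if_neg (h2 i x)]
      · simp
      · intro h
        exact hi (hD1 i j a (h ▸ x.2) hj)
    · intro h
      exact absurd (mem_univ _) h
  · set b := q / a with hb
    have hb0 : b ≠ 0 := h0 j b hj
    have ha0 : a ≠ 0 := by
      rintro rfl
      rw [div_zero] at hb
      exact hb0 hb
    have hab : a = q / b := by rw [hb, hqq a ha0]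
    have h2 : ∀ (i : J) (x : B i), a ≠ x := by
      intro i x h
      exact hD2 j i b hj (by rw [← hab, h]; exact x.2)
    rw [prod_eq_single j, prod_eq_single (⟨b, hj⟩ : B j)]
    · rw [if_neg (h2 j _), if_pos hab]
      simp only [pow_zero, pow_one, one_mul]
      exact hab.symm
    · intro x _ hx
      rw [if_neg (h2 j x), if_neg]
      · simp
      · intro h
        apply hx
        apply Subtype.ext
        change (x : ℂ) = b
        rw [hb, h, hqq x (h0 j x x.2)]
    · intro h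
      exact absurd (mem_univ _) h
    · intro i _ hi
      apply prod_eq_one
      intro x _
      rw [if_neg (h2 i x), if_neg]
      · simp
      · intro h
        apply hi
        refine hD1 i j (x : ℂ) x.2 ?_
        have : (x : ℂ) = b := by rw [hb, h, hqq x (h0 i x x.2)]
        rw [this]
        exact hj
    · intro h
      exact absurd (mem_univ _) h

lemma list_prod (hq : q ≠ 0) (h0 : ∀ j, ∀ x ∈ B j, x ≠ 0)
    (hD1 : ∀ i j, ∀ x, x ∈ B i → x ∈ B j → i = j)
    (hD2 : ∀ i j, ∀ x, x ∈ B i → q / x ∉ B j) (l : List ℂ)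
    (hl : ∀ a ∈ l, ∃ j, a ∈ B j ∨ q / a ∈ B j) :
    l.prod = ∏ j, ∏ x : B j, ((x : ℂ) ^ (l.count (x : ℂ)) * (q / x) ^ (l.count (q / (x : ℂ)))) := by
  classical
  induction l with
  | nil => simp
  | cons a l ih =>
    rw [List.prod_cons, ih (fun b hb => hl b (List.mem_cons_of_mem a hb))]
    conv_lhs => rw [← ind_prod B q hq h0 hD1 hD2 a (hl a List.mem_cons_self)]
    rw [← prod_mul_distrib]
    refine prod_congr rfl fun j _ => ?_
    rw [← prod_mul_distrib]
    refine prod_congr rfl fun x _ => ?_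
    rw [List.count_cons, List.count_cons, pow_add, pow_add]
    simp only [beq_iff_eq]
    ring

/-- **Combination**: the Tate classes when the eigenvalues are permuted by a large group. -/
theorem tate_comb {q : ℕ} (hq : 1 < q) (G : Subgroup (RingAut ℂ))
    (hG : ∀ σ ∈ G, ∀ j, ∀ x ∈ B j, σ x ∈ B j)
    (h3 : ∀ j, 3 ≤ (B j).card)
    (hnorm : ∀ j, ∀ x ∈ B j, ‖x‖ = Real.sqrt q)
    (hdet : ∀ j, ∃ N : ℕ, 0 < N ∧ ∃ k : ℤ, (∏ x ∈ B j, x) ^ N = (q : ℂ) ^ k)
    (h1 : ∀ j, GalOK q G (B j))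
    (h2 : ∀ j, ∃ σ ∈ G, (∀ i, i ≠ j → ∀ x ∈ B i, σ x = x) ∧ ∃ x ∈ B j, σ x ≠ x)
    {V : Type*} [AddCommGroup V] [Module ℂ V] (Φ : V →ₗ[ℂ] V)
    (hspan : Submodule.span ℂ {v : V | ∃ μ : ℂ, (∃ j, μ ∈ B j ∨ (q : ℂ) / μ ∈ B j) ∧
      Φ v = μ • v} = ⊤)
    (m s : ℕ) (hs : 1 ≤ s) (x : ExteriorAlgebra ℂ V) (hx : x ∈ ⋀[ℂ]^(2 * m) V)
    (hFx : ExteriorAlgebra.map (Φ ^ s) x = ((q : ℂ) ^ m) ^ s • x) :
    x ∈ Algebra.adjoin ℂ (gens Φ (q : ℂ) B) := by
  classical
  have hq0 : (0 : ℝ) < q := by exact_mod_cast (by omega : 0 < q)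
  have hqC : (q : ℂ) ≠ 0 := by exact_mod_cast (by omega : q ≠ 0)
  have h0 : ∀ j, ∀ x ∈ B j, x ≠ 0 := by
    intro j x hx h
    have := hnorm j x hx
    rw [h, norm_zero] at this
    exact (Real.sqrt_pos.2 hq0).ne this
  have rel := rel_main B G hq hG hnorm hdet h1 h2
  -- another element
  have hother : ∀ (j : J) (x y : ℂ), ∃ z ∈ B j, z ≠ x ∧ z ≠ y := by
    intro j x y
    by_contra hn
    push Not at hn
    have h4 : B j ⊆ {x, y} := by
      intro z hz
      rw [mem_insert, mem_singleton]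
      by_cases hzx : z = x
      · exact Or.inl hzx
      · exact Or.inr (hn z hz hzx)
    have := (card_le_card h4).trans card_le_two
    have := h3 j
    omega
  -- the exponents of two elements
  have key : ∀ (i j : J) (a : B i) (b : B j) (ca cb : ℤ) (k : ℤ), 0 < ca → (cb ≤ 0 → i ≠ j) →
      (a : ℂ) ^ ca * (b : ℂ) ^ cb = (q : ℂ) ^ k → False := by
    intro i j a b ca cb k hca hcb hab
    have h4 := rel ((Pi.single i (Pi.single a ca : B i → ℤ) : ∀ j, B j → ℤ) +
      Pi.single j (Pi.single b cb : B j → ℤ)) 1 one_pos k (by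
        rw [pow_one, mono_add h0, ← hab]
        have h5 : ∀ (i : J) (a : B i) (c : ℤ),
            mono B (Pi.single i (Pi.single a c : B i → ℤ) : ∀ j, B j → ℤ) = (a : ℂ) ^ c := by
          intro i a c
          unfold mono
          rw [prod_eq_single i, prod_eq_single a]
          · rw [Pi.single_eq_same, Pi.single_eq_same]
          · intro y _ hy
            rw [Pi.single_eq_same, Pi.single_eq_of_ne hy, zpow_zero]
          · intro h
            exact absurd (mem_univ _) h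
          · intro i' _ hi
            apply prod_eq_one
            intro y _
            rw [Pi.single_eq_of_ne hi, Pi.zero_apply, zpow_zero]
          · intro h
            exact absurd (mem_univ _) h
        rw [h5, h5])
    obtain ⟨z, hz, hza, hzb⟩ := hother i a b
    have h5 := h4 i a ⟨z, hz⟩
    simp only [Pi.add_apply, Pi.single_eq_same] at h5
    have h6 : (Pi.single a ca : B i → ℤ) ⟨z, hz⟩ = 0 := by
      apply Pi.single_eq_of_ne
      intro h
      exact hza (congrArg Subtype.val h)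
    rw [h6] at h5
    by_cases hij : i = j
    · subst hij
      rw [Pi.single_eq_same] at h5
      have h7 : (Pi.single b cb : B i → ℤ) ⟨z, hz⟩ = 0 := by
        apply Pi.single_eq_of_ne
        intro h
        exact hzb (congrArg Subtype.val h)
      rw [h7] at h5
      have hcb' : 0 < cb := by
        by_contra hle
        exact hcb (by omega) rfl
      have h8 : (0 : ℤ) ≤ (Pi.single b cb : B i → ℤ) a := by
        rw [Pi.single_apply]
        split_ifs <;> omega
      omega
    · rw [Pi.single_eq_of_ne hij] at h5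
      simp only [Pi.zero_apply] at h5
      omega
  have hD1 : ∀ i j, ∀ x, x ∈ B i → x ∈ B j → i = j := by
    intro i j x hi hj
    by_contra hne
    refine key i j ⟨x, hi⟩ ⟨x, hj⟩ 1 (-1) 0 one_pos (fun _ => hne) ?_
    rw [zpow_one, zpow_neg, zpow_one, zpow_zero]
    exact mul_inv_cancel₀ (h0 i x hi)
  have hD2 : ∀ i j, ∀ x, x ∈ B i → (q : ℂ) / x ∉ B j := by
    intro i j x hi hj
    refine key i j ⟨x, hi⟩ ⟨_, hj⟩ 1 1 1 one_pos (fun h => by omega) ?_
    rw [zpow_one, zpow_one, zpow_one]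
    have := h0 i x hi
    field_simp
  refine mem_adjoin_gen Φ (q : ℂ) {x | ∃ j, x ∈ B j ∨ (q : ℂ) / x ∈ B j} hspan m s _ ?_ x hx hFx
  intro L hLlen hL hLprod
  refine (mono_mem Φ (q : ℂ) B hqC h0 (fun j => card_pos.1 (by have := h3 j; omega)) hD1 hD2
    L.length L rfl hL ?_).1 (by rw [hLlen]; exact even_two_mul m)
  set l := L.map Prod.snd with hl
  have hlE : ∀ a ∈ l, ∃ j, a ∈ B j ∨ (q : ℂ) / a ∈ B j := by
    intro a ha
    obtain ⟨e, he, rfl⟩ := List.mem_map.1 ha
    exact (hL e he).1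
  have h4 := list_prod B (q : ℂ) hqC h0 hD1 hD2 l hlE
  set μ : ∀ j, B j → ℤ := fun j x => (l.count (x : ℂ) : ℤ) - (l.count ((q : ℂ) / x) : ℤ) with hμ
  set c : ℕ := ∑ j, ∑ x : B j, l.count ((q : ℂ) / x) with hc
  have h5 : l.prod = mono B μ * (q : ℂ) ^ c := by
    rw [h4, hc, ← prod_pow_eq_pow_sum]
    unfold mono
    rw [← prod_mul_distrib]
    refine prod_congr rfl fun j _ => ?_
    rw [← prod_pow_eq_pow_sum, ← prod_mul_distrib]
    refine prod_congr rfl fun x _ => ?_
    have hx0 := h0 j x x.2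
    rw [hμ]
    simp only
    rw [zpow_sub₀ hx0, zpow_natCast, zpow_natCast, div_pow]
    field_simp
  have h6 : mono B μ ^ s = (q : ℂ) ^ ((m * s : ℤ) - (c * s : ℤ)) := by
    have h7 : (mono B μ * (q : ℂ) ^ c) ^ s = ((q : ℂ) ^ m) ^ s := by
      rw [← h5]
      exact hLprod
    rw [mul_pow] at h7
    rw [zpow_sub₀ hqC, eq_div_iff (zpow_ne_zero _ hqC)]
    have e1 : (q : ℂ) ^ ((c : ℤ) * (s : ℤ)) = ((q : ℂ) ^ c) ^ s := by
      rw [zpow_mul]
      norm_cast
    have e2 : (q : ℂ) ^ ((m : ℤ) * (s : ℤ)) = ((q : ℂ) ^ m) ^ s := by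
      rw [zpow_mul]
      norm_cast
    rw [e1, e2]
    exact h7
  have h7 := rel μ s (by omega) _ h6
  have hne : ∀ j, ∃ z : ℂ, z ∈ B j := fun j => card_pos.1 (by have := h3 j; omega)
  choose z hz using hne
  refine ⟨fun j => μ j ⟨z j, hz j⟩, ?_⟩
  intro j y hy
  exact h7 j ⟨y, hy⟩ ⟨z j, hz j⟩

end

end Pool.Agent.L5helper29.AS
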