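import Pool.Agent.L5helper29.AS.CoreQ
import Pool.Agent.Y951.WP.Main

/-!
# The Riemann hypothesis for additive character sums of polynomials over an arbitrary finite field
(adapted from `Pool.Agent.Y951.WP.Main`, where the field is a prime field)
-/

set_option autoImplicit false
set_option linter.all false

open Polynomial Finset
open Pool.Agent.H341R2.Sharp Pool.Agent.H498R2.Kl
open Pool.Agent.Y807.WB Pool.Agent.Y951.WP

namespace Pool.Agent.L5helper29.AS

section Count
variable (p : ℕ) [Fact p.Prime]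

theorem count_boundQ (F : Type) [Field F] [Fintype F] [Algebra (ZMod p) F] (f : F[X])
    (hf : ¬ p ∣ f.natDegree) :
    ∃ C0 N0 : ℕ, ∀ m : ℕ, N0 ≤ m → ∀ (E : Type) [Field E] [Fintype E] [Algebra F E]
      [Algebra (ZMod p) E] [IsScalarTower (ZMod p) F E],
      Module.finrank F E = m → ∀ (t : ZMod p) (S : Finset E),
      (∀ x ∈ S, Algebra.trace (ZMod p) E (aeval x f) = t) →
      p * S.card ≤ p ^ (Module.finrank (ZMod p) F * m) +
        C0 * p ^ (Module.finrank (ZMod p) F * m - Module.finrank (ZMod p) F * m / 2) := by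
  classical
  have hpp : p.Prime := Fact.out
  set a := Module.finrank (ZMod p) F with ha
  haveI : Module.Finite (ZMod p) F := Module.Finite.of_finite
  have ha1 : 1 ≤ a := Module.finrank_pos
  let k := AlgebraicClosure F
  let j : F →+* k := algebraMap F k
  have hj : Function.Injective j := j.injective
  haveI : CharP F p := charP_of_injective_algebraMap (algebraMap (ZMod p) F).injective p
  haveI : CharP k p := charP_of_injective_algebraMap hj p
  have hcF : Fintype.card F = p ^ a := by
    rw [Module.card_eq_pow_finrank (K := ZMod p) (V := F), ZMod.card]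
  have hfix : ∀ f : F[X], ∀ i, (f.map j).coeff i ^ p ^ a = (f.map j).coeff i := by
    intro f i
    rw [coeff_map, ← map_pow, ← hcF, FiniteField.pow_card]
  obtain ⟨C0, N0, hcore⟩ := coreQ k p a ha1 (f.map j) 1 (hfix _) (by
      intro i
      rw [coeff_one]
      split_ifs
      · rw [one_pow]
      · rw [zero_pow (pow_ne_zero _ hpp.ne_zero)]) one_ne_zero
    (no_rat p (f.map j) (by rwa [natDegree_map]))
  refine ⟨C0, N0, fun m hm E _ _ _ _ _ hE t S hS => ?_⟩
  haveI : Module.Finite F E := Module.Finite.of_finite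
  haveI : Module.Finite (ZMod p) E := Module.Finite.of_finite
  haveI : Algebra.IsAlgebraic F E := Algebra.IsAlgebraic.of_finite _ _
  let ι : E →ₐ[F] k := IsAlgClosed.lift
  have hι : Function.Injective ι := ι.toRingHom.injective
  have hcard : Fintype.card E = p ^ (a * m) := by
    rw [Module.card_eq_pow_finrank (K := F) (V := E), hcF, hE, pow_mul]
  have hfin : Module.finrank (ZMod p) E = a * m := by
    rw [← hE, ha, Module.finrank_mul_finrank]
  let j0 : ZMod p →+* k := j.comp (algebraMap (ZMod p) F)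
  have key := hcore m hm (j0 t) (by rw [← map_pow, ZMod.pow_card]) (S.image ι) (by
    intro z hz
    rw [mem_image] at hz
    obtain ⟨x, hx, rfl⟩ := hz
    have hcomm : ∀ s : ZMod p, ι (algebraMap (ZMod p) E s) = j0 s := by
      intro s
      rw [IsScalarTower.algebraMap_apply (ZMod p) F E]
      exact ι.commutes _
    refine ⟨?_, ?_, ?_⟩
    · rw [← map_pow, ← hcard, FiniteField.pow_card]
    · rw [eval_one]
      exact one_ne_zero
    · have h1 : (f.map j).eval (ι x) / (1 : k[X]).eval (ι x) = ι (aeval x f) := by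
        rw [eval_one, div_one, eval_map_algebraMap, aeval_algHom_apply]
      rw [h1, ← hS x hx]
      have h2 := FiniteField.algebraMap_trace_eq_sum_pow (ZMod p) E (aeval x f)
      rw [← hcomm, h2, map_sum, hfin]
      apply sum_congr rfl
      intro i _
      rw [map_pow, Nat.card_zmod])
  rwa [card_image_of_injective _ hι] at key

end Count

section Chars

/-- every additive character of a finite field is a shift of a given primitive one -/
theorem exists_shift {F : Type} [Field F] [Fintype F] {ψ₁ : AddChar F ℂ} (h₁ : ψ₁.IsPrimitive)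
    (ψ : AddChar F ℂ) : ∃ c : F, ψ = ψ₁.mulShift c := by
  classical
  have hinj : Function.Injective (fun c : F => ψ₁.mulShift c) :=
    AddChar.to_mulShift_inj_of_isPrimitive h₁
  have hcard : Fintype.card F = Fintype.card (AddChar F ℂ) := (AddChar.card_eq).symm
  have hb := (Fintype.bijective_iff_injective_and_card _).2 ⟨hinj, hcard⟩
  obtain ⟨c, hc⟩ := hb.2 ψ
  exact ⟨c, hc.symm⟩

/-- the trace character -/
noncomputable def trChar (p : ℕ) [Fact p.Prime] (F : Type) [Field F] [Fintype F]
    [Algebra (ZMod p) F] : AddChar F ℂ :=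
  (ZMod.stdAddChar (N := p)).compAddMonoidHom (Algebra.trace (ZMod p) F).toAddMonoidHom

theorem trChar_apply (p : ℕ) [Fact p.Prime] (F : Type) [Field F] [Fintype F]
    [Algebra (ZMod p) F] (x : F) :
    trChar p F x = ZMod.stdAddChar (N := p) (Algebra.trace (ZMod p) F x) := rfl

/-- the trace character is primitive -/
theorem trace_char (p : ℕ) [Fact p.Prime] (F : Type) [Field F] [Fintype F] [Algebra (ZMod p) F] :
    (trChar p F).IsPrimitive := by
  apply AddChar.IsPrimitive.of_ne_one
  intro h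
  haveI : Module.Finite (ZMod p) F := Module.Finite.of_finite
  obtain ⟨b, hb⟩ := Algebra.trace_surjective (ZMod p) F 1
  have h1 : trChar p F b = 1 := by rw [h, AddChar.one_apply]
  rw [trChar_apply, hb] at h1
  have h2 : (1 : ZMod p) = 0 := by
    apply ZMod.injective_stdAddChar (N := p)
    rw [h1, AddChar.map_zero_eq_one]
  exact one_ne_zero h2

end Chars

section Sums
variable (p : ℕ) [Fact p.Prime] (F : Type) [Field F] [Fintype F] [DecidableEq F] [Algebra (ZMod p) F]

open Classical in
/-- the points with a given trace -/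
noncomputable def NQ (E : Type) [Field E] [Fintype E] [Algebra F E] [Algebra (ZMod p) E]
    (f : F[X]) (t : ZMod p) : Finset E :=
  univ.filter (fun x : E => Algebra.trace (ZMod p) E (aeval x f) = t)

open Classical in
theorem mem_NQ {E : Type} [Field E] [Fintype E] [Algebra F E] [Algebra (ZMod p) E]
    {f : F[X]} {t : ZMod p} {x : E} :
    x ∈ NQ p F E f t ↔ Algebra.trace (ZMod p) E (aeval x f) = t := by
  unfold NQ
  rw [mem_filter]
  exact and_iff_right (mem_univ _)

theorem sum_TQ (E : Type) [Field E] [Fintype E] [DecidableEq E] [Algebra F E] [Algebra (ZMod p) E]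
    [IsScalarTower (ZMod p) F E] (c : F) (f : F[X]) :
    ∑ s ∈ univ.filter (fun s : ZMod p => s ≠ 0),
      TG (lamP ((trChar p F).mulShift c) (C (algebraMap (ZMod p) F s) * f)) (Module.finrank F E) =
      (p : ℂ) * (NQ p F E (C c * f) 0).card - (Fintype.card E : ℂ) := by
  classical
  haveI : Module.Finite (ZMod p) F := Module.Finite.of_finite
  haveI : Module.Finite F E := Module.Finite.of_finite
  haveI : Module.Finite (ZMod p) E := Module.Finite.of_finite
  have hψ : (ZMod.stdAddChar (N := p)).IsPrimitive := ZMod.isPrimitive_stdAddChar p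
  have h1 : ∀ s : ZMod p, TG (lamP ((trChar p F).mulShift c) (C (algebraMap (ZMod p) F s) * f))
      (Module.finrank F E) =
      ∑ x : E, ZMod.stdAddChar (N := p) (s * Algebra.trace (ZMod p) E (aeval x (C c * f))) := by
    intro s
    rw [TP_eq_sum (E := E)]
    apply sum_congr rfl
    intro x _
    rw [AddChar.mulShift_apply, trChar_apply]
    congr 1
    have e1 : ∀ b : F, Algebra.trace F E (aeval x (C b * f)) =
        b * Algebra.trace F E (aeval x f) := by
      intro b
      rw [map_mul, aeval_C, ← Algebra.smul_def, map_smul, smul_eq_mul]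
    rw [e1, ← Algebra.trace_trace (R := ZMod p) (S := F) (aeval x (C c * f)), e1, mul_left_comm,
      ← Algebra.smul_def, map_smul, smul_eq_mul]
  have h2 : ∑ s : ZMod p, TG (lamP ((trChar p F).mulShift c) (C (algebraMap (ZMod p) F s) * f))
      (Module.finrank F E) =
      (p : ℂ) * (NQ p F E (C c * f) 0).card := by
    simp_rw [h1]
    rw [sum_comm]
    simp_rw [AddChar.sum_mulShift _ hψ]
    have e2 : ((NQ p F E (C c * f) 0).card : ℂ) =
        ∑ x : E, if (Algebra.trace (ZMod p) E (aeval x (C c * f)) = 0)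
        then (1 : ℂ) else 0 := by
      rw [← sum_filter, sum_const, nsmul_eq_mul, mul_one]
      congr 2
    rw [e2, mul_sum]
    apply sum_congr rfl
    intro x _
    rw [ZMod.card]
    by_cases h' : Algebra.trace (ZMod p) E (aeval x (C c * f)) = 0
    · rw [if_pos h', if_pos h', mul_one]
    · rw [if_neg h', if_neg h', mul_zero, Nat.cast_zero]
  have h3 : TG (lamP ((trChar p F).mulShift c) (C (algebraMap (ZMod p) F 0) * f))
      (Module.finrank F E) = (Fintype.card E : ℂ) := by
    rw [h1 0]
    simp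
  have h4 : ∑ s : ZMod p, TG (lamP ((trChar p F).mulShift c) (C (algebraMap (ZMod p) F s) * f))
      (Module.finrank F E) =
      ∑ s ∈ univ.filter (fun s : ZMod p => s ≠ 0),
        TG (lamP ((trChar p F).mulShift c) (C (algebraMap (ZMod p) F s) * f)) (Module.finrank F E) +
        TG (lamP ((trChar p F).mulShift c) (C (algebraMap (ZMod p) F 0) * f))
          (Module.finrank F E) := by
    rw [← sum_filter_add_sum_filter_not univ (fun s : ZMod p => s ≠ 0)]
    congr 1
    have : (univ.filter fun s : ZMod p => ¬ s ≠ 0) = {0} := by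
      ext s
      simp
    rw [this, sum_singleton]
  rw [h4, h3] at h2
  rw [← h2]
  ring

theorem count_two_sidedQ (f : F[X]) (hf : ¬ p ∣ f.natDegree) :
    ∃ C1 : ℝ, 0 ≤ C1 ∧ ∀ m : ℕ, 1 ≤ m → ∀ (E : Type) [Field E] [Fintype E] [DecidableEq E]
      [Algebra F E] [Algebra (ZMod p) E] [IsScalarTower (ZMod p) F E],
      Module.finrank F E = m →
      |(p : ℝ) * (NQ p F E f 0).card - (Fintype.card E : ℝ)| ≤
        C1 * (Real.sqrt (Fintype.card F)) ^ m := by
  classical
  have hpp : p.Prime := Fact.out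
  haveI : Module.Finite (ZMod p) F := Module.Finite.of_finite
  obtain ⟨C0, N0, hcb⟩ := count_boundQ p F f hf
  set a := Module.finrank (ZMod p) F with ha
  have hcF : Fintype.card F = p ^ a := by
    rw [Module.card_eq_pow_finrank (K := ZMod p) (V := F), ZMod.card]
  have hsqF : Real.sqrt (Fintype.card F) = Real.sqrt p ^ a := by
    rw [hcF]
    push_cast
    rw [Real.sqrt_eq_iff_mul_self_eq (by positivity) (by positivity), ← mul_pow,
      Real.mul_self_sqrt (by positivity)]
  have hp1 : (1 : ℝ) ≤ p := by exact_mod_cast hpp.one_le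
  have hs1 : 1 ≤ Real.sqrt p := by rwa [Real.one_le_sqrt]
  have hss : Real.sqrt p * Real.sqrt p = p := Real.mul_self_sqrt (by positivity)
  refine ⟨(p : ℝ) * (p : ℝ) ^ (a * N0) + p * C0 * Real.sqrt p, by positivity, ?_⟩
  intro m hm E _ _ _ _ _ _ hE
  have hcard : Fintype.card E = p ^ (a * m) := by
    rw [Module.card_eq_pow_finrank (K := F) (V := E), hcF, hE, pow_mul]
  have hNG : (NQ p F E f 0).card ≤ p ^ (a * m) := by
    rw [← hcard]
    exact card_le_univ _
  rw [hcard, hsqF, ← pow_mul]
  set M := a * m with hM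
  have hsq : Real.sqrt p ^ M * Real.sqrt p ^ M = (p : ℝ) ^ M := by
    rw [← mul_pow, hss]
  have hsm : 1 ≤ Real.sqrt p ^ M := one_le_pow₀ hs1
  push_cast
  by_cases hmN : N0 ≤ m
  · -- large `m`
    have hb : ∀ t : ZMod p, (p : ℝ) * (NQ p F E f t).card ≤ (p : ℝ) ^ M + C0 * (p : ℝ) ^ (M - M / 2) := by
      intro t
      exact_mod_cast hcb m hmN E hE t (NQ p F E f t) (fun x hx => (mem_NQ p F).1 hx)
    have hsum : ∑ t : ZMod p, ((NQ p F E f t).card : ℝ) = (p : ℝ) ^ M := by
      have h1 : Fintype.card E = ∑ t : ZMod p, (NQ p F E f t).card := by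
        rw [← card_univ, card_eq_sum_card_fiberwise (f := fun x => Algebra.trace (ZMod p) E (aeval x f))
          (t := univ) (fun _ _ => mem_univ _)]
        refine sum_congr rfl fun t _ => ?_
        congr 1
      rw [hcard] at h1
      exact_mod_cast h1.symm
    have hpw : (p : ℝ) ^ (M - M / 2) ≤ Real.sqrt p * Real.sqrt p ^ M := by
      have h1 : (p : ℝ) ^ (M - M / 2) = Real.sqrt p ^ (2 * (M - M / 2)) := by
        rw [pow_mul, sq, hss]
      rw [h1, ← pow_succ']
      exact pow_le_pow_right₀ hs1 (by omega)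
    have hupper : (p : ℝ) * (NQ p F E f 0).card - (p : ℝ) ^ M ≤ C0 * (p : ℝ) ^ (M - M / 2) := by
      have h1 := hb 0
      linarith
    have hlower : -(((p : ℝ) - 1) * (C0 * (p : ℝ) ^ (M - M / 2))) ≤
        (p : ℝ) * (NQ p F E f 0).card - (p : ℝ) ^ M := by
      have h1 : ∑ t ∈ univ.erase (0 : ZMod p), (p : ℝ) * ((NQ p F E f t).card : ℝ) ≤
          ((p : ℝ) - 1) * ((p : ℝ) ^ M + C0 * (p : ℝ) ^ (M - M / 2)) := by
        refine (sum_le_card_nsmul _ _ _ fun t _ => hb t).trans ?_
        rw [card_erase_of_mem (mem_univ _), card_univ, ZMod.card, nsmul_eq_mul,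
          Nat.cast_sub hpp.one_le, Nat.cast_one]
      have h2 : (p : ℝ) * (NQ p F E f 0).card + ∑ t ∈ univ.erase (0 : ZMod p), (p : ℝ) * ((NQ p F E f t).card : ℝ) =
          p * (p : ℝ) ^ M := by
        rw [add_sum_erase univ (fun t => (p : ℝ) * ((NQ p F E f t).card : ℝ)) (mem_univ (0 : ZMod p)),
          ← mul_sum, hsum]
      nlinarith
    have h5 : 0 ≤ C0 * (p : ℝ) ^ (M - M / 2) := by positivity
    have h6 : |(p : ℝ) * (NQ p F E f 0).card - (p : ℝ) ^ M| ≤ p * (C0 * (p : ℝ) ^ (M - M / 2)) := by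
      rw [abs_le]
      constructor
      · nlinarith
      · nlinarith
    refine h6.trans ?_
    have h7 : C0 * (p : ℝ) ^ (M - M / 2) ≤ C0 * (Real.sqrt p * Real.sqrt p ^ M) :=
      mul_le_mul_of_nonneg_left hpw (Nat.cast_nonneg _)
    have h8 : (p : ℝ) * (C0 * (p : ℝ) ^ (M - M / 2)) ≤ p * (C0 * (Real.sqrt p * Real.sqrt p ^ M)) :=
      mul_le_mul_of_nonneg_left h7 (by linarith)
    have h10 : (0 : ℝ) ≤ (p : ℝ) * (p : ℝ) ^ (a * N0) * Real.sqrt p ^ M := by positivity
    calc _ ≤ _ := h8
      _ ≤ _ := by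
        have : (p : ℝ) * (C0 * (Real.sqrt p * Real.sqrt p ^ M)) = p * C0 * Real.sqrt p * Real.sqrt p ^ M := by
          ring
        rw [this, add_mul]
        linarith
  · -- small `m`
    push Not at hmN
    have h1 : |(p : ℝ) * (NQ p F E f 0).card - (p : ℝ) ^ M| ≤ p * (p : ℝ) ^ M := by
      have h2 : ((NQ p F E f 0).card : ℝ) ≤ (p : ℝ) ^ M := by exact_mod_cast hNG
      have h3 : (0 : ℝ) ≤ (NQ p F E f 0).card := by positivity
      have h4 : (0 : ℝ) ≤ (p : ℝ) ^ M := by positivity
      rw [abs_le]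
      constructor
      · nlinarith
      · nlinarith
    have h3 : (p : ℝ) ^ M ≤ (p : ℝ) ^ (a * N0) :=
      pow_le_pow_right₀ hp1 (Nat.mul_le_mul_left a hmN.le)
    have h4 : (p : ℝ) * (p : ℝ) ^ M ≤ (p : ℝ) * (p : ℝ) ^ (a * N0) * Real.sqrt p ^ M := by
      have h5 : (0 : ℝ) ≤ (p : ℝ) * (p : ℝ) ^ (a * N0) := by positivity
      calc (p : ℝ) * (p : ℝ) ^ M ≤ p * (p : ℝ) ^ (a * N0) := by nlinarith
        _ ≤ _ := le_mul_of_one_le_right h5 hsm
    have h6 : (0 : ℝ) ≤ p * C0 * Real.sqrt p * Real.sqrt p ^ M := by positivity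
    rw [add_mul]
    linarith

theorem exists_extension (m : ℕ) (hm : 1 ≤ m) : ∃ (E : Type) (_ : Field E) (_ : Fintype E)
    (_ : Algebra F E) (_ : Algebra (ZMod p) E) (_ : IsScalarTower (ZMod p) F E),
    Module.finrank F E = m := by
  haveI : CharP F p := charP_of_injective_algebraMap (algebraMap (ZMod p) F).injective p
  haveI : NeZero m := ⟨by omega⟩
  exact ⟨FiniteField.Extension F p m, inferInstance, Fintype.ofFinite _, inferInstance,
    inferInstance, inferInstance, FiniteField.finrank_extension F p m⟩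

theorem sum_TG_boundQ (f : F[X]) (hf : ¬ p ∣ f.natDegree) (c : F) (hc : c ≠ 0) :
    ∃ C1 : ℝ, 0 ≤ C1 ∧ ∀ m : ℕ, 1 ≤ m →
    ‖∑ s ∈ univ.filter (fun s : ZMod p => s ≠ 0),
      TG (lamP ((trChar p F).mulShift c) (C (algebraMap (ZMod p) F s) * f)) m‖ ≤
      C1 * (Real.sqrt (Fintype.card F)) ^ m := by
  classical
  obtain ⟨C1, hC1, h⟩ := count_two_sidedQ p F (C c * f) (by rwa [natDegree_C_mul hc])
  refine ⟨C1, hC1, fun m hm => ?_⟩
  obtain ⟨E, _, _, _, _, _, hfr⟩ := exists_extension p F m hm
  have h1 := sum_TQ p F E c f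
  rw [hfr] at h1
  rw [h1]
  have h2 := h m hm E hfr
  rw [← Real.norm_eq_abs, ← Complex.norm_real] at h2
  push_cast at h2
  exact h2

end Sums

/-- **The Riemann hypothesis**, as a bound for the roots of the `L`-polynomial. -/
theorem LP_root {F : Type} [Field F] [Fintype F] [DecidableEq F] {ψ : AddChar F ℂ}
    (hψ : ψ.IsPrimitive) {f : F[X]} (hk : 1 ≤ f.natDegree) (hkF : (f.natDegree : F) ≠ 0)
    (z : ℂ) (hz : (LP ψ f).eval z = 0) : 1 ≤ Real.sqrt (Fintype.card F) * ‖z‖ := by
  classical
  obtain ⟨p, hpF⟩ := CharP.exists F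
  haveI : Fact p.Prime := ⟨CharP.char_is_prime F p⟩
  letI : Algebra (ZMod p) F := ZMod.algebra F p
  obtain ⟨c, rfl⟩ := exists_shift (trace_char p F) ψ
  have hf : ¬ p ∣ f.natDegree := by
    intro h
    apply hkF
    rwa [CharP.cast_eq_zero_iff F p]
  have hc : c ≠ 0 := by
    rintro rfl
    apply hψ one_ne_zero
    ext x
    simp [AddChar.mulShift_apply]
  set s := univ.filter (fun s : ZMod p => s ≠ 0) with hs
  set g : ZMod p → F[X] := fun t => C (algebraMap (ZMod p) F t) * f with hg
  set A : ℂ[X] := ∏ t ∈ s, LP ((trChar p F).mulShift c) (g t) with hA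
  have ht : ∀ t ∈ s, (g t).natDegree = f.natDegree := by
    intro t ht
    rw [hs, mem_filter] at ht
    exact natDegree_C_mul ((_root_.map_ne_zero _).2 ht.2)
  have ht1 : ∀ t ∈ s, 1 ≤ (g t).natDegree := fun t hts => by rw [ht t hts]; exact hk
  have ht2 : ∀ t ∈ s, ((g t).natDegree : F) ≠ 0 := fun t hts => by
    rw [ht t hts]; exact hkF
  have hid : HID A (fun m => ∑ t ∈ s, TG (lamP ((trChar p F).mulShift c) (g t)) m) :=
    HID.prod s _ _ fun t hts => LP_HID hψ (ht1 t hts) (ht2 t hts)
  have hA0 : A.coeff 0 = 1 := by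
    rw [hA, coeff_zero_prod]
    exact prod_eq_one fun t hts => LP_zero hψ (ht1 t hts) (ht2 t hts)
  obtain ⟨C1, hC1, hbound⟩ := sum_TG_boundQ p F f hf c hc
  have hq0 : 0 < Real.sqrt (Fintype.card F) :=
    Real.sqrt_pos.2 (by exact_mod_cast Fintype.card_pos)
  apply root_norm A hA0 (fun m => ∑ t ∈ s, TG (lamP ((trChar p F).mulShift c) (g t)) m)
    (Real.sqrt (Fintype.card F)) C1 hq0 hC1
  · intro m hm
    exact hbound m hm
  · exact hid
  · rw [hA, eval_prod]
    apply prod_eq_zero (i := (1 : ZMod p))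
    · rw [hs, mem_filter]
      exact ⟨mem_univ _, one_ne_zero⟩
    · rw [hg]
      simp only [map_one, one_mul]
      exact hz

end Pool.Agent.L5helper29.AS
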