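import Pool.Agent.L5helper29.AS.Det
import Pool.Agent.L5helper29.AS.WeilQ

/-!
# The Frobenius eigenvalues attached to `ψ (f x)`
-/

set_option autoImplicit false
set_option linter.all false

namespace Pool.Agent.L5helper29.AS

open Polynomial Finset
open Pool.Agent.Y951.WP Pool.Agent.H341R2.Sharp Pool.Agent.H498R2.Kl

/-- `A` is the multiset of eigenvalues of the Frobenius of `F` on the first compactly supported
cohomology of the affine line with coefficients in the Artin-Schreier sheaf of `ψ (f x)`: for each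
finite extension `E` of `F` the exponential sum of `f` over `E` is minus the sum of the `[E : F]`-th
powers of the elements of `A`, and these are not zero. -/
def IsFrob {F : Type} [Field F] [Fintype F] (ψ : AddChar F ℂ) (f : F[X]) (A : Multiset ℂ) : Prop :=
  (0 : ℂ) ∉ A ∧ ∀ (E : Type) [Field E] [Fintype E] [Algebra F E],
    ∑ x : E, ψ (Algebra.trace F E (aeval x f)) =
      - (A.map (fun α => α ^ Module.finrank F E)).sum

/-- the polynomial with inverse roots `A` -/
noncomputable def PA (A : Multiset ℂ) : ℂ[X] := (A.map (fun α => 1 - C α * X)).prod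

lemma PA_cons (a : ℂ) (A : Multiset ℂ) : PA (a ::ₘ A) = (1 - C a * X) * PA A := by
  unfold PA
  rw [Multiset.map_cons, Multiset.prod_cons]

lemma lin_coeff (α : ℂ) (k : ℕ) : (1 - C α * X : ℂ[X]).coeff k =
    if k = 0 then 1 else if k = 1 then - α else 0 := by
  rw [coeff_sub, coeff_C_mul, coeff_one, coeff_X]
  rcases k with _ | _ | k
  · simp
  · simp
  · simp

lemma HID_lin (α : ℂ) : HID (1 - C α * X) (fun m => - α ^ m) := by
  intro n
  simp only [lin_coeff]
  rcases n with _ | _ | n
  · simp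
  · simp
  · rw [if_neg (by omega), if_neg (by omega), mul_zero]
    have h1 : Icc 1 (n + 1 + 1) = insert (n + 1 + 1) (insert (n + 1) (Icc 1 n)) := by
      ext k
      simp only [mem_Icc, mem_insert]
      omega
    rw [h1, sum_insert, sum_insert]
    · have h2 : ∑ x ∈ Icc 1 n, (if n + 1 + 1 - x = 0 then (1 : ℂ) else
          if n + 1 + 1 - x = 1 then - α else 0) * - α ^ x = 0 := by
        apply sum_eq_zero
        intro x hx
        rw [mem_Icc] at hx
        rw [if_neg (by omega), if_neg (by omega), zero_mul]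
      rw [h2, if_pos (by omega), if_neg (by omega), if_pos (by omega)]
      ring
    · simp
    · simp only [mem_insert, mem_Icc]
      omega

lemma HID_PA (A : Multiset ℂ) : HID (PA A) (fun m => - (A.map (fun α => α ^ m)).sum) := by
  induction A using Multiset.induction_on with
  | empty => simpa [PA] using HID.one
  | cons a A ih =>
    rw [PA_cons]
    have h1 := (HID_lin a).mul ih
    have h2 : (fun m => - ((a ::ₘ A).map (fun α => α ^ m)).sum) =
        (fun m => - a ^ m + - (A.map (fun α => α ^ m)).sum) := by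
      funext m
      rw [Multiset.map_cons, Multiset.sum_cons]
      ring
    rw [h2]
    exact h1

lemma PA_coeff_zero (A : Multiset ℂ) : (PA A).coeff 0 = 1 := by
  induction A using Multiset.induction_on with
  | empty => simp [PA]
  | cons a A ih => rw [PA_cons, mul_coeff_zero, ih, lin_coeff]; simp

lemma PA_top (A : Multiset ℂ) : (PA A).natDegree ≤ A.card ∧
    (PA A).coeff A.card = (-1) ^ A.card * A.prod := by
  induction A using Multiset.induction_on with
  | empty => simp [PA]
  | cons a A ih =>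
    obtain ⟨h1, h2⟩ := ih
    have h3 : (1 - C a * X : ℂ[X]).natDegree ≤ 1 := by
      rw [natDegree_le_iff_coeff_eq_zero]
      intro k hk
      rw [lin_coeff, if_neg (by omega), if_neg (by omega)]
    rw [PA_cons, Multiset.card_cons, Multiset.prod_cons]
    constructor
    · refine natDegree_mul_le.trans ?_
      omega
    · rw [add_comm A.card 1, coeff_mul_add_eq_of_natDegree_le h3 h1, h2, lin_coeff]
      simp only [one_ne_zero, if_false, if_true]
      ring

lemma HID_unique {a b : ℂ[X]} {S U : ℕ → ℂ} (ha : HID a S) (hb : HID b U) (ha0 : a.coeff 0 = 1)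
    (hb0 : b.coeff 0 = 1) (h : ∀ m, 1 ≤ m → S m = U m) : a = b := by
  ext n
  induction n using Nat.strong_induction_on with
  | _ n ih =>
    rcases Nat.eq_zero_or_pos n with h0 | h0
    · rw [h0, ha0, hb0]
    · have h1 : (n : ℂ) * a.coeff n = (n : ℂ) * b.coeff n := by
        rw [ha n, hb n]
        apply sum_congr rfl
        intro m hm
        rw [mem_Icc] at hm
        rw [ih (n - m) (by omega), h m hm.1]
      exact mul_left_cancel₀ (by exact_mod_cast h0.ne') h1

lemma HID_S {a : ℂ[X]} {S U : ℕ → ℂ} (hS : HID a S) (hU : HID a U) (ha0 : a.coeff 0 = 1)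
    (m : ℕ) (hm : 1 ≤ m) : S m = U m := by
  induction m using Nat.strong_induction_on with
  | _ m ih =>
    have h1 := hS m
    rw [hU m] at h1
    have h2 : Icc 1 m = insert m (Icc 1 (m - 1)) := by
      ext k
      simp only [mem_Icc, mem_insert]
      omega
    rw [h2, sum_insert (by simp only [mem_Icc]; omega), sum_insert (by simp only [mem_Icc]; omega),
      Nat.sub_self, ha0, one_mul, one_mul] at h1
    have h3 : ∑ x ∈ Icc 1 (m - 1), a.coeff (m - x) * U x =
        ∑ x ∈ Icc 1 (m - 1), a.coeff (m - x) * S x := by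
      apply sum_congr rfl
      intro x hx
      rw [mem_Icc] at hx
      rw [ih x (by omega) hx.1]
    rw [h3] at h1
    exact (add_right_cancel h1).symm

lemma PA_roots {A : Multiset ℂ} (hA : (0 : ℂ) ∉ A) : (PA A).roots = A.map (fun α => α⁻¹) := by
  unfold PA
  rw [roots_multiset_prod]
  · rw [Multiset.bind_map]
    have h1 : ∀ α ∈ A, (1 - C α * X : ℂ[X]).roots = {α⁻¹} := by
      intro α hα
      have hα0 : α ≠ 0 := fun h => hA (h ▸ hα)
      have h2 : (1 - C α * X : ℂ[X]) = C (-α) * (X - C α⁻¹) := by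
        rw [mul_sub, ← C_mul, neg_mul, mul_inv_cancel₀ hα0, C_neg, C_neg, C_1]
        ring
      rw [h2, roots_C_mul _ (neg_ne_zero.2 hα0), roots_X_sub_C]
    rw [Multiset.bind_congr h1, Multiset.bind_singleton]
  · intro h
    rw [Multiset.mem_map] at h
    obtain ⟨α, _, h⟩ := h
    have := congrArg (fun g : ℂ[X] => g.coeff 0) h
    simp only [lin_coeff, coeff_zero, if_true] at this
    exact one_ne_zero this

section

variable {F : Type} [Field F] [Fintype F] [DecidableEq F]

lemma TG_eq_of_frob {ψ : AddChar F ℂ} {f : F[X]} {A : Multiset ℂ} (hA : IsFrob ψ f A) (m : ℕ)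
    (hm : 1 ≤ m) : TG (lamP ψ f) m = - (A.map (fun α => α ^ m)).sum := by
  classical
  obtain ⟨p, hp⟩ := CharP.exists F
  have : Fact (Nat.Prime p) := ⟨CharP.char_is_prime F p⟩
  have : NeZero m := ⟨by omega⟩
  let E := FiniteField.Extension F p m
  let _ : Fintype E := Fintype.ofFinite E
  have hfr : Module.finrank F E = m := FiniteField.finrank_extension F p m
  have h1 := hA.2 E
  rw [hfr] at h1
  rw [← h1, ← TP_eq_sum, hfr]

/-- the characterization by the `L`-polynomial -/
theorem frob_iff {ψ : AddChar F ℂ} (hψ : ψ.IsPrimitive) {f : F[X]} (hk : 1 ≤ f.natDegree)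
    (hkF : (f.natDegree : F) ≠ 0) (A : Multiset ℂ) :
    IsFrob ψ f A ↔ (0 : ℂ) ∉ A ∧ PA A = LP ψ f := by
  classical
  constructor
  · intro hA
    refine ⟨hA.1, HID_unique (HID_PA A) (LP_HID hψ hk hkF) (PA_coeff_zero A) (LP_zero hψ hk hkF) ?_⟩
    intro m hm
    exact (TG_eq_of_frob hA m hm).symm
  · rintro ⟨h0, h1⟩
    refine ⟨h0, ?_⟩
    intro E _ _ _
    haveI : Module.Finite F E := Module.Finite.of_finite
    rw [← TP_eq_sum]
    have h2 := HID_PA A
    rw [h1] at h2
    exact HID_S (LP_HID hψ hk hkF) h2 (LP_zero hψ hk hkF) _ Module.finrank_pos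

theorem frob_exists {ψ : AddChar F ℂ} (hψ : ψ.IsPrimitive) {f : F[X]} (hk : 1 ≤ f.natDegree)
    (hkF : (f.natDegree : F) ≠ 0) : ∃! A : Multiset ℂ, IsFrob ψ f A := by
  have hL0 := LP_zero hψ hk hkF
  have hne : LP ψ f ≠ 0 := by
    intro h
    rw [h, coeff_zero] at hL0
    exact zero_ne_one hL0
  have hr0 : ∀ z ∈ (LP ψ f).roots, z ≠ 0 := by
    rintro z hz rfl
    rw [mem_roots hne, IsRoot.def, ← coeff_zero_eq_eval_zero, hL0] at hz
    exact one_ne_zero hz
  refine ⟨(LP ψ f).roots.map (fun z => z⁻¹), ?_, ?_⟩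
  · refine (frob_iff hψ hk hkF _).2 ?_
    constructor
    · intro h
      rw [Multiset.mem_map] at h
      obtain ⟨z, hz, h⟩ := h
      exact hr0 z hz (inv_eq_zero.1 h)
    · have h1 := (IsAlgClosed.splits (LP ψ f)).eq_prod_roots
      have h2 : ((LP ψ f).roots.map (fun z => X - C z)).prod =
          C ((LP ψ f).roots.map (fun z => -z)).prod *
            PA ((LP ψ f).roots.map (fun z => z⁻¹)) := by
        unfold PA
        rw [Multiset.map_map, ← Multiset.prod_hom _ C, Multiset.map_map, ← Multiset.prod_map_mul]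
        congr 1
        apply Multiset.map_congr rfl
        intro z hz
        simp only [Function.comp]
        have hz0 := hr0 z hz
        rw [mul_sub, mul_one, ← mul_assoc, ← C_mul, neg_mul, mul_inv_cancel₀ hz0, C_neg, C_neg, C_1]
        ring
      rw [h2, ← mul_assoc, ← C_mul] at h1
      have h3 : (LP ψ f).leadingCoeff * ((LP ψ f).roots.map (fun z => -z)).prod = 1 := by
        have := congrArg (fun g : ℂ[X] => g.coeff 0) h1
        simp only [coeff_C_mul, PA_coeff_zero, mul_one, hL0] at this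
        exact this.symm
      rw [h3, C_1, one_mul] at h1
      exact h1.symm
  · intro B hB
    rw [frob_iff hψ hk hkF] at hB
    rw [← hB.2, PA_roots hB.1, Multiset.map_map]
    simp

variable {ψ : AddChar F ℂ} (hψ : ψ.IsPrimitive) {f : F[X]} {n : ℕ} (hn : 1 ≤ n)
  (hf : f.natDegree = n + 1) (hd : ((n + 1 : ℕ) : F) ≠ 0)

/-- the determinant of the Frobenius: the formula, up to the sign of the coefficient -/
theorem AG_cases (hψ : ψ.IsPrimitive) (hn : 1 ≤ n)
    (hf : f.natDegree = n + 1) (hd : ((n + 1 : ℕ) : F) ≠ 0) :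
    (∃ m, n = 2 * m ∧ AG (lamP ψ f) n = (Fintype.card F : ℂ) ^ m * ψ (T f (crit f))) ∨
    (∃ m, n = 2 * m + 1 ∧ (2 : F) ≠ 0 ∧ AG (lamP ψ f) n =
      (Fintype.card F : ℂ) ^ m * ψ (T f (crit f)) *
        ∑ s : F, ψ ((f.natDegree : F) * f.leadingCoeff / 2 * s ^ 2)) := by
  rcases Nat.even_or_odd' n with ⟨m, h | h⟩
  · left
    refine ⟨m, h, ?_⟩
    subst h
    exact AG_even hψ (by omega) hf hd
  · right
    have h2 : (2 : F) ≠ 0 := by
      intro h2
      apply hd
      rw [h]
      push_cast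
      rw [h2]
      linear_combination h2
    refine ⟨m, h, h2, ?_⟩
    subst h
    exact AG_odd hψ h2 hf hd

lemma AG_pow (hψ : ψ.IsPrimitive) (hn : 1 ≤ n)
    (hf : f.natDegree = n + 1) (hd : ((n + 1 : ℕ) : F) ≠ 0) :
    ∃ N : ℕ, 0 < N ∧ AG (lamP ψ f) n ^ (2 * N) = (Fintype.card F : ℂ) ^ (n * N) := by
  have hcard : 0 < Fintype.card F := Fintype.card_pos
  have hroot : ∀ x : F, ψ x ^ (Fintype.card F) = 1 := by
    intro x
    rw [← AddChar.map_nsmul_eq_pow, card_nsmul_eq_zero, AddChar.map_zero_eq_one]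
  rcases AG_cases hψ hn hf hd with ⟨m, h1, h2⟩ | ⟨m, h1, h3, h2⟩
  · refine ⟨Fintype.card F, hcard, ?_⟩
    rw [h2, mul_pow, ← pow_mul, mul_comm 2 (Fintype.card F), pow_mul (ψ _), hroot, one_pow, mul_one]
    congr 1
    rw [h1]
    ring
  · have hκ : (f.natDegree : F) * f.leadingCoeff / 2 ≠ 0 := div_ne_zero (lead_ne hf hd) h3
    refine ⟨2 * Fintype.card F, by omega, ?_⟩
    rw [h2, mul_pow, mul_pow, ← pow_mul]
    have e1 : ψ (T f (crit f)) ^ (2 * (2 * Fintype.card F)) = 1 := by
      rw [show 2 * (2 * Fintype.card F) = Fintype.card F * 4 by ring, pow_mul, hroot, one_pow]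
    have e2 : (∑ s : F, ψ ((f.natDegree : F) * f.leadingCoeff / 2 * s ^ 2)) ^
        (2 * (2 * Fintype.card F)) = (Fintype.card F : ℂ) ^ (2 * Fintype.card F) := by
      rw [pow_mul]
      rcases gauss_sq hψ h3 hκ with h | h
      · rw [h]
      · rw [h, pow_mul, pow_mul, neg_sq]
    rw [e1, e2, mul_one, ← pow_add]
    congr 1
    rw [h1]
    ring

lemma AG_ne (hψ : ψ.IsPrimitive) (hn : 1 ≤ n)
    (hf : f.natDegree = n + 1) (hd : ((n + 1 : ℕ) : F) ≠ 0) : AG (lamP ψ f) n ≠ 0 := by
  obtain ⟨N, hN, h⟩ := AG_pow hψ hn hf hd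
  intro h0
  rw [h0, zero_pow (by omega)] at h
  exact pow_ne_zero _ (by exact_mod_cast Fintype.card_ne_zero) h.symm

lemma AG_norm (hψ : ψ.IsPrimitive) (hn : 1 ≤ n)
    (hf : f.natDegree = n + 1) (hd : ((n + 1 : ℕ) : F) ≠ 0) :
    ‖AG (lamP ψ f) n‖ = Real.sqrt (Fintype.card F) ^ n := by
  obtain ⟨N, hN, h⟩ := AG_pow hψ hn hf hd
  have h1 := congrArg norm h
  rw [norm_pow, norm_pow, Complex.norm_natCast] at h1
  have h2 : (Fintype.card F : ℝ) ^ (n * N) = (Real.sqrt (Fintype.card F) ^ n) ^ (2 * N) := by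
    rw [← pow_mul, mul_comm n (2 * N), mul_assoc, pow_mul (Real.sqrt _), Real.sq_sqrt (by positivity),
      mul_comm N n]
  rw [h2] at h1
  exact (pow_left_inj₀ (norm_nonneg _) (by positivity) (by omega)).1 h1

/-- **The Frobenius eigenvalues**: their number, their absolute values and their product. -/
theorem frob_main (hψ : ψ.IsPrimitive) (hn : 1 ≤ n)
    (hf : f.natDegree = n + 1) (hd : ((n + 1 : ℕ) : F) ≠ 0) {A : Multiset ℂ}
    (hA : IsFrob ψ f A) :
    A.card = n ∧ (∀ α ∈ A, ‖α‖ = Real.sqrt (Fintype.card F)) ∧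
      (-1) ^ n * A.prod = AG (lamP ψ f) n := by
  have hk : 1 ≤ f.natDegree := by omega
  have hkF : (f.natDegree : F) ≠ 0 := by rw [hf]; exact hd
  obtain ⟨h0, hP⟩ := (frob_iff hψ hk hkF A).1 hA
  obtain ⟨ht1, ht2⟩ := PA_top A
  rw [hP] at ht1 ht2
  have hprod0 : A.prod ≠ 0 := by
    rw [Ne, Multiset.prod_eq_zero_iff]
    exact h0
  have hcoef := LP_coeff hψ hk hkF n
  have hcard : A.card = n := by
    apply le_antisymm
    · by_contra hlt
      push Not at hlt
      have h1 := LP_coeff hψ hk hkF A.card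
      rw [AP_eq_zero hψ hk hkF A.card (by omega), ht2] at h1
      exact mul_ne_zero (pow_ne_zero _ (by norm_num)) hprod0 h1
    · by_contra hlt
      push Not at hlt
      rw [coeff_eq_zero_of_natDegree_lt (lt_of_le_of_lt ht1 hlt)] at hcoef
      exact AG_ne hψ hn hf hd hcoef.symm
  have hprod : (-1) ^ n * A.prod = AG (lamP ψ f) n := by
    rw [← hcoef, ← hcard, ht2]
  refine ⟨hcard, ?_, hprod⟩
  set r := Real.sqrt (Fintype.card F) with hr
  have hr0 : 0 < r := Real.sqrt_pos.2 (by exact_mod_cast Fintype.card_pos)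
  have hle : ∀ α ∈ A, ‖α‖ ≤ r := by
    intro α hα
    have hα0 : α ≠ 0 := fun h => h0 (h ▸ hα)
    have h1 : (LP ψ f).eval α⁻¹ = 0 := by
      have h2 : α⁻¹ ∈ (PA A).roots := by
        rw [PA_roots h0]
        exact Multiset.mem_map_of_mem _ hα
      rw [hP] at h2
      exact (mem_roots'.1 h2).2
    have h3 := LP_root hψ hk hkF _ h1
    rw [norm_inv] at h3
    have h4 : 0 < ‖α‖ := norm_pos_iff.2 hα0
    have h5 : 1 * ‖α‖ ≤ r * ‖α‖⁻¹ * ‖α‖ := mul_le_mul_of_nonneg_right h3 h4.le
    rwa [one_mul, mul_assoc, inv_mul_cancel₀ h4.ne', mul_one] at h5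
  have hnorm : (A.map (fun α => ‖α‖)).prod = r ^ n := by
    have h1 := congrArg norm hprod
    rw [AG_norm hψ hn hf hd, norm_mul, norm_pow, norm_neg, norm_one, one_pow, one_mul] at h1
    rw [← h1]
    have : ‖A.prod‖ = (A.map (fun α => ‖α‖)).prod := by
      exact (Multiset.prod_hom A (normHom : ℂ →*₀ ℝ)).symm
    exact this.symm
  intro α hα
  by_contra hne
  have hlt : ‖α‖ < r := lt_of_le_of_ne (hle α hα) hne
  obtain ⟨B, hB⟩ := Multiset.exists_cons_of_mem hα
  have h1 : (B.map (fun α => ‖α‖)).prod ≤ r ^ B.card := by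
    have : ∀ C : Multiset ℂ, (∀ α ∈ C, ‖α‖ ≤ r) → (C.map (fun α => ‖α‖)).prod ≤ r ^ C.card := by
      intro C
      induction C using Multiset.induction_on with
      | empty => intro _; simp
      | cons c C ih =>
        intro hC
        rw [Multiset.map_cons, Multiset.prod_cons, Multiset.card_cons, pow_succ']
        exact mul_le_mul (hC c (Multiset.mem_cons_self c C))
          (ih fun α hα => hC α (Multiset.mem_cons_of_mem hα))
          (Multiset.prod_nonneg (by
            intro x hx
            rw [Multiset.mem_map] at hx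
            obtain ⟨y, _, rfl⟩ := hx
            exact norm_nonneg y)) hr0.le
    apply this
    intro β hβ
    apply hle
    rw [hB]
    exact Multiset.mem_cons_of_mem hβ
  rw [hB, Multiset.map_cons, Multiset.prod_cons] at hnorm
  rw [hB, Multiset.card_cons] at hcard
  rw [← hcard, pow_succ'] at hnorm
  have h2 : ‖α‖ * (B.map (fun α => ‖α‖)).prod < r * r ^ B.card := by
    refine lt_of_le_of_lt (mul_le_mul_of_nonneg_left h1 (norm_nonneg α)) ?_
    exact mul_lt_mul_of_pos_right hlt (by positivity)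
  exact h2.ne hnorm

end

end Pool.Agent.L5helper29.AS
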