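import Pool.Agent.L5helper29.AS.Det

/-!
# The function `valSum` on the space of monic polynomials
-/

set_option autoImplicit false
set_option linter.all false

namespace Pool.Agent.L5helper29.AS

open Polynomial Finset
open Pool.Agent.Y951.WP

section

variable {F : Type*} [Field F]

/-- the linear form -/
noncomputable def LF (f h : F[X]) (n : ℕ) : F[X] →ₗ[F] F where
  toFun g := - PowerSeries.coeff (n + 1) (rf n (derivative f) * (rf n g * (rv h)⁻¹))
  map_add' g g' := by
    rw [rf_add, add_mul, mul_add, map_add]
    ring
  map_smul' s g := by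
    rw [smul_eq_C_mul, rf_C_mul]
    have : rf n (derivative f) * (PowerSeries.C s * rf n g * (rv h)⁻¹) =
      PowerSeries.C s * (rf n (derivative f) * (rf n g * (rv h)⁻¹)) := by ring
    rw [this, PowerSeries.coeff_C_mul, RingHom.id_apply, smul_eq_mul]
    ring

lemma LF_apply (f h : F[X]) (n : ℕ) (g : F[X]) : LF f h n g =
    - PowerSeries.coeff (n + 1) (rf n (derivative f) * (rf n g * (rv h)⁻¹)) := rfl

lemma eq_low {k : ℕ} {g : F[X]} (hg : g.degree < k) :
    g = low k (fun i => g.coeff (i : ℕ)) := by
  ext i
  rw [low_coeff]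
  split_ifs with h
  · rfl
  · apply coeff_eq_zero_of_degree_lt
    refine hg.trans_le ?_
    exact_mod_cast Nat.le_of_not_lt h

lemma degree_lt_of_coeff {k : ℕ} {g : F[X]} (h : ∀ i, k ≤ i → g.coeff i = 0) : g.degree < k := by
  rw [degree_lt_iff_coeff_zero]
  exact fun i hi => h i hi

theorem geom_linear {f : F[X]} {n m : ℕ} (hf : f.natDegree = n + 1) (hd : ((n + 1 : ℕ) : F) ≠ 0)
    (hm : 2 * m ≤ n) {h : F[X]} (hh : h.Monic) (hn : h.natDegree = n) :
    (∀ g : F[X], g.degree < m → T f (h + g) = T f h + LF f h n g) ∧
    ((∀ g : F[X], g.degree < m → LF f h n g = 0) ↔ (h - crit f).degree < ((n - m : ℕ) : WithBot ℕ)) := by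
  classical
  have hcm := crit_monic hf hd
  have hcn := crit_natDegree hf hd
  constructor
  · intro g hg
    rcases Nat.eq_zero_or_pos m with hm0 | hm0
    · have : g = 0 := by
        rw [hm0] at hg
        rw [eq_low hg, low_zero_len]
      rw [this, add_zero, map_zero, add_zero]
    · have h1 : g.natDegree < m := by
        rw [eq_low hg]
        exact low_natDegree hm0 _
      rw [T_low hf hh hn (by omega), LF_apply, sub_eq_add_neg]
  · constructor
    · intro h0
      have h1 := lam_zero (k := m) hf hd hh hn (by omega) (by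
        intro c
        change LF f h n (low m c) = 0
        apply h0
        exact degree_sum_fin_lt c)
      apply degree_lt_of_coeff
      intro i hi
      rw [coeff_sub]
      by_cases hin : i ≤ n
      · have := h1 (n - i) (by omega)
        rw [show n - (n - i) = i by omega] at this
        rw [this, sub_self]
      · rw [coeff_eq_zero_of_natDegree_lt (by omega), coeff_eq_zero_of_natDegree_lt (by omega),
          sub_self]
    · intro h0 g hg
      rcases Nat.eq_zero_or_pos m with hm0 | hm0
      · have : g = 0 := by
          rw [hm0] at hg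
          rw [eq_low hg, low_zero_len]
        rw [this, map_zero]
      have hl1 : g.natDegree < m := by
        rw [eq_low hg]
        exact low_natDegree hm0 _
      set g₀ := h - crit f with hg₀
      have hl2 : g₀.natDegree < n - m := by
        rw [eq_low h0]
        exact low_natDegree (by omega) _
      have e0 : h = crit f + g₀ := by rw [hg₀]; ring
      obtain ⟨e1, e2, e3⟩ := rv_add hcm hcn (by omega : g₀.natDegree < n)
      rw [← e0] at e1 e2 e3
      have e4 := rv_inv e1
      have e5 : rv (crit f) = rv h - rf n g₀ := by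
        rw [e3]; ring
      have e6 : rf n (derivative f) * (rf n g * (rv h)⁻¹) =
          PowerSeries.C ((f.natDegree : F) * f.leadingCoeff) * rf n g -
          PowerSeries.C ((f.natDegree : F) * f.leadingCoeff) *
            (rf n g₀ * rf n g * (rv h)⁻¹) := by
        rw [rf_der hf hd, e5]
        calc _ = PowerSeries.C ((f.natDegree : F) * f.leadingCoeff) * rf n g *
              (rv h * (rv h)⁻¹) -
            PowerSeries.C ((f.natDegree : F) * f.leadingCoeff) *
            (rf n g₀ * rf n g * (rv h)⁻¹) := by ring
          _ = _ := by rw [e4, mul_one]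
      have e7 : (PowerSeries.X : PowerSeries F) ^ (n + 2) ∣ rf n g₀ * rf n g * (rv h)⁻¹ := by
        refine Dvd.dvd.mul_right ?_ _
        have e8 : (PowerSeries.X : PowerSeries F) ^ (n + 2) ∣
            (PowerSeries.X : PowerSeries F) ^ (m + 1) * (PowerSeries.X : PowerSeries F) ^ (n - m + 1) := by
          rw [← pow_add]
          exact pow_dvd_pow _ (by omega)
        exact e8.trans (mul_dvd_mul (rf_dvd (by omega)) (rf_dvd (by omega)))
      rw [LF_apply, e6, map_sub, PowerSeries.coeff_C_mul, PowerSeries.coeff_C_mul,
        coeff_rf_big (by omega) (Nat.lt_succ_self n), mul_zero,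
        PowerSeries.X_pow_dvd_iff.1 e7 (n + 1) (by omega), mul_zero, sub_zero, neg_zero]

theorem geom_even {f : F[X]} {m : ℕ} (hm : 1 ≤ m) (hf : f.natDegree = 2 * m + 1)
    (hd : ((2 * m + 1 : ℕ) : F) ≠ 0) {h : F[X]} (h0 : (h - crit f).degree < (m : WithBot ℕ)) :
    T f h = T f (crit f) := by
  have e0 : h = crit f + (h - crit f) := by ring
  rw [e0]
  apply T_const hf hd
  have : (h - crit f).natDegree < m := by
    rw [eq_low h0]
    exact low_natDegree (by omega) _
  omega

theorem geom_odd {f : F[X]} {m : ℕ} (hf : f.natDegree = 2 * m + 1 + 1)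
    (hd : ((2 * m + 1 + 1 : ℕ) : F) ≠ 0) (s : F) {g : F[X]} (hg : g.degree < (m : WithBot ℕ)) :
    T f (crit f + C s * X ^ m + g) =
      T f (crit f) + (f.natDegree : F) * f.leadingCoeff / 2 * s ^ 2 := by
  have h2 : (2 : F) ≠ 0 := by
    intro h2
    apply hd
    push_cast
    linear_combination ((m : F) + 1) * h2
  refine T_mid_low hf hd rfl h2 s ?_
  rcases Nat.eq_zero_or_pos m with hm0 | hm0
  · left
    rw [hm0] at hg
    rw [eq_low hg, low_zero_len]
  · right
    rw [eq_low hg]
    exact low_natDegree hm0 _

end

end Pool.Agent.L5helper29.AS
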