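import Pool.Agent.L5helper29.AS.Comb
import Pool.Agent.L5helper29.AS.Frob
import Pool.Agent.L5helper29.AS.Geom

/-!
# Tate classes on products of powers of Artin-Schreier curves
-/

set_option autoImplicit false
set_option linter.all false

namespace Pool.Agent.L5helper29.AS

open Polynomial Finset
open Pool.Agent.Y951.WP Pool.Agent.H341R2.Sharp Pool.Agent.H498R2.Kl

section

variable {F : Type} [Field F] [Fintype F] [DecidableEq F]

/-- `σ` is the identity on the `p`-th roots of unity -/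
def FixMu (p : ℕ) (σ : ℂ ≃+* ℂ) : Prop := ∀ z : ℂ, z ^ p = 1 → σ z = z

lemma char_pow (ψ : AddChar F ℂ) (a : F) : ψ a ^ (ringChar F) = 1 := by
  rw [← AddChar.map_nsmul_eq_pow, nsmul_eq_mul, ringChar.Nat.cast_ringChar, zero_mul,
    AddChar.map_zero_eq_one]

/-- automorphisms fixing the `p`-th roots of unity permute the eigenvalues -/
theorem frob_map {ψ : AddChar F ℂ} (hψ : ψ.IsPrimitive) {f : F[X]} (hk : 1 ≤ f.natDegree)
    (hkF : (f.natDegree : F) ≠ 0) {A : Multiset ℂ} (hA : IsFrob ψ f A) (σ : ℂ ≃+* ℂ)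
    (hσ : FixMu (ringChar F) σ) : A.map σ = A := by
  have h1 : IsFrob ψ f (A.map σ) := by
    constructor
    · intro h
      rw [Multiset.mem_map] at h
      obtain ⟨a, ha, h⟩ := h
      have : a = 0 := by
        apply σ.injective
        rw [h, map_zero]
      exact hA.1 (this ▸ ha)
    · intro E _ _ _
      have h2 := congrArg σ (hA.2 E)
      rw [map_sum, map_neg, map_multiset_sum, Multiset.map_map] at h2
      rw [Multiset.map_map]
      have h3 : ∀ x : E, σ (ψ (Algebra.trace F E (aeval x f))) = ψ (Algebra.trace F E (aeval x f)) :=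
        fun x => hσ _ (char_pow ψ _)
      rw [sum_congr rfl fun x _ => h3 x] at h2
      rw [h2]
      congr 3
      funext x
      simp
  exact (frob_exists hψ hk hkF).unique h1 hA

/-- the group of the automorphisms of `ℂ` fixing the `p`-th roots of unity -/
def Gp (p : ℕ) : Subgroup (RingAut ℂ) where
  carrier := {σ | FixMu p σ}
  mul_mem' := by
    intro a b ha hb z hz
    rw [RingAut.mul_apply, hb z hz, ha z hz]
  one_mem' := fun z _ => rfl
  inv_mem' := by
    intro a ha z hz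
    have h1 : a⁻¹ (a z) = z := by
      rw [← RingAut.mul_apply, inv_mul_cancel, RingAut.one_apply]
    rwa [ha z hz] at h1

lemma mem_Gp {p : ℕ} {σ : RingAut ℂ} : σ ∈ Gp p ↔ FixMu p σ := Iff.rfl

/-- the power of the product of the eigenvalues -/
lemma frob_pow {ψ : AddChar F ℂ} {f : F[X]} {n : ℕ} (hψ : ψ.IsPrimitive) (hn : 1 ≤ n)
    (hf : f.natDegree = n + 1) (hd : ((n + 1 : ℕ) : F) ≠ 0) {A : Multiset ℂ}
    (hA : IsFrob ψ f A) :
    ∃ N : ℕ, 0 < N ∧ A.prod ^ (2 * N) = (Fintype.card F : ℂ) ^ (n * N) ∧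
      (A.map (fun α => (Fintype.card F : ℂ) / α)).prod ^ (2 * N) =
        (Fintype.card F : ℂ) ^ (n * N) := by
  obtain ⟨h1, _, h3⟩ := frob_main hψ hn hf hd hA
  obtain ⟨N, hN, h4⟩ := AG_pow hψ hn hf hd
  have hq : (Fintype.card F : ℂ) ≠ 0 := by exact_mod_cast Fintype.card_ne_zero
  have h5 : A.prod ^ (2 * N) = (Fintype.card F : ℂ) ^ (n * N) := by
    rw [← h4, ← h3, mul_pow, ← pow_mul]
    have : (-1 : ℂ) ^ (n * (2 * N)) = 1 := by
      rw [show n * (2 * N) = 2 * (n * N) by ring, pow_mul, neg_one_sq, one_pow]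
    rw [this, one_mul]
  refine ⟨N, hN, h5, ?_⟩
  have h6 : (A.map (fun α => (Fintype.card F : ℂ) / α)).prod =
      (Fintype.card F : ℂ) ^ n / A.prod := by
    have h7 : ∀ B : Multiset ℂ, (B.map (fun α => (Fintype.card F : ℂ) / α)).prod =
      (Fintype.card F : ℂ) ^ B.card / B.prod := by
      intro B
      induction B using Multiset.induction_on with
      | empty => simp
      | cons b B ih =>
        rw [Multiset.map_cons, Multiset.prod_cons, ih, Multiset.card_cons, Multiset.prod_cons,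
          pow_succ', div_mul_div_comm]
    rw [h7, h1]
  rw [h6, div_pow, h5, ← pow_mul, div_eq_iff (pow_ne_zero _ hq), ← pow_add]
  congr 1
  ring

end

section tate

variable {V : Type*} [AddCommGroup V] [Module ℂ V] (Φ : V →ₗ[ℂ] V)

/-- a determinant monomial is an eigenvector -/
lemma detC_eig {S : Multiset ℂ} {w : ExteriorAlgebra ℂ V} (hw : w ∈ detC Φ S) (s : ℕ) :
    w ∈ ⋀[ℂ]^(S.card) V ∧ ExteriorAlgebra.map (Φ ^ s) w = S.prod ^ s • w := by
  obtain ⟨L, rfl, hL, rfl⟩ := hw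
  have hpow : ∀ (v : V) (μ : ℂ), Φ v = μ • v → (Φ ^ s) v = μ ^ s • v := by
    intro v μ h
    induction s with
    | zero => simp
    | succ s ih => rw [pow_succ', Module.End.mul_apply, ih, map_smul, h, smul_smul, pow_succ]
  rw [Multiset.coe_card, List.length_map, Multiset.prod_coe]
  induction L with
  | nil =>
    constructor
    · simp only [List.map_nil, List.prod_nil, List.length_nil]
      rw [ExteriorAlgebra.exteriorPower, pow_zero]
      exact Submodule.one_le.1 le_rfl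
    · simp
  | cons e L ih =>
    obtain ⟨h1, h2⟩ := ih (fun e he => hL e (List.mem_cons_of_mem _ he))
    constructor
    · rw [List.map_cons, List.prod_cons, List.length_cons, ExteriorAlgebra.exteriorPower, pow_succ']
      exact Submodule.mul_mem_mul (LinearMap.mem_range_self _ _) h1
    · rw [List.map_cons, List.prod_cons, map_mul, ExteriorAlgebra.map_apply_ι, h2,
        hpow _ _ (hL e List.mem_cons_self), map_smul, smul_mul_smul_comm, List.map_cons,
        List.prod_cons, mul_pow]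

end tate

/-- **The main theorem.** -/
theorem tate_main {F : Type} [Field F] [Fintype F] [DecidableEq F] {J : Type} [Fintype J]
    (f : J → F[X]) (ψ : J → AddChar F ℂ) (A : J → Multiset ℂ)
    (hf : ∀ j, 4 ≤ (f j).natDegree) (hd : ∀ j, ((f j).natDegree : F) ≠ 0)
    (hψ : ∀ j, (ψ j).IsPrimitive) (hA : ∀ j, IsFrob (ψ j) (f j) (A j))
    (hnd : ∀ j, (A j).Nodup)
    (hlarge : ∀ j, (∀ x ∈ A j, ∀ y ∈ A j, ∀ x' ∈ A j, ∀ y' ∈ A j, x ≠ y → x' ≠ y' →
      ∃ σ : ℂ ≃+* ℂ, FixMu (ringChar F) σ ∧ σ x = x' ∧ σ y = y') ∨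
    ((A j).card.Prime ∧ (∀ x ∈ A j, ∀ y ∈ A j, ∃ σ : ℂ ≃+* ℂ, FixMu (ringChar F) σ ∧ σ x = y) ∧
      ∃ x ∈ A j, ∀ N : ℕ, 0 < N → x ^ (2 * N) ≠ (Fintype.card F : ℂ) ^ N))
    (hind : ∀ j, ∃ σ : ℂ ≃+* ℂ, FixMu (ringChar F) σ ∧ (∀ i, i ≠ j → ∀ x ∈ A i, σ x = x) ∧
      ∃ x ∈ A j, σ x ≠ x)
    {V : Type*} [AddCommGroup V] [Module ℂ V] (Φ : V →ₗ[ℂ] V)
    (hspan : Submodule.span ℂ {v : V | ∃ j, ∃ α ∈ A j, Φ v = α • v ∨
      Φ v = ((Fintype.card F : ℂ) / α) • v} = ⊤)
    (m s : ℕ) (hs : 1 ≤ s) (x : ExteriorAlgebra ℂ V) (hx : x ∈ ⋀[ℂ]^(2 * m) V)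
    (hFx : ExteriorAlgebra.map (Φ ^ s) x = ((Fintype.card F : ℂ) ^ m) ^ s • x) :
    x ∈ Algebra.adjoin ℂ (gens Φ (Fintype.card F : ℂ) (fun j => (A j).toFinset)) := by
  classical
  have hq : 1 < Fintype.card F := Fintype.one_lt_card
  have hqC : (Fintype.card F : ℂ) ≠ 0 := by exact_mod_cast Fintype.card_ne_zero
  have hfn : ∀ j, (f j).natDegree = ((f j).natDegree - 1) + 1 := fun j => by
    have := hf j
    omega
  have hdn : ∀ j, ((((f j).natDegree - 1) + 1 : ℕ) : F) ≠ 0 := fun j => by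
    rw [← hfn j]
    exact hd j
  have hn1 : ∀ j, 1 ≤ (f j).natDegree - 1 := fun j => by
    have := hf j
    omega
  have hmain := fun j => frob_main (hψ j) (hn1 j) (hfn j) (hdn j) (hA j)
  have hcard : ∀ j, (A j).toFinset.card = (f j).natDegree - 1 := by
    intro j
    rw [Multiset.toFinset_card_of_nodup (hnd j), (hmain j).1]
  have hmem : ∀ j (x : ℂ), x ∈ (A j).toFinset ↔ x ∈ A j := fun j x => Multiset.mem_toFinset
  refine tate_comb (fun j => (A j).toFinset) hq (Gp (ringChar F)) ?_ ?_ ?_ ?_ ?_ ?_ Φ ?_ m s hs x hx hFx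
  · intro σ hσ j x hx
    rw [hmem] at hx ⊢
    have h1 := frob_map (hψ j) (by have := hf j; omega) (hd j) (hA j) σ hσ
    rw [← h1]
    exact Multiset.mem_map_of_mem _ hx
  · intro j
    rw [hcard]
    have := hf j
    omega
  · intro j x hx
    rw [hmem] at hx
    exact (hmain j).2.1 x hx
  · intro j
    obtain ⟨N, hN, h1, _⟩ := frob_pow (hψ j) (hn1 j) (hfn j) (hdn j) (hA j)
    refine ⟨2 * N, by omega, (((f j).natDegree - 1) * N : ℕ), ?_⟩
    rw [zpow_natCast, ← h1]
    congr 1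
    rw [Finset.prod_multiset_count]
    refine prod_congr rfl fun x hx => ?_
    rw [Multiset.count_eq_one_of_mem (hnd j) (Multiset.mem_toFinset.1 hx), pow_one]
  · intro j
    rcases hlarge j with h | ⟨h1, h2, x, hx, h3⟩
    · left
      refine ⟨by rw [hcard]; have := hf j; omega, ?_⟩
      intro x hx y hy x' hx' y' hy' hxy hxy'
      rw [hmem] at hx hy hx' hy'
      obtain ⟨σ, e1, e2, e3⟩ := h x hx y hy x' hx' y' hy' hxy hxy'
      exact ⟨σ, e1, e2, e3⟩
    · right
      refine ⟨by rw [hcard, ← (hmain j).1]; exact h1, ?_, x, (hmem j x).2 hx, ?_⟩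
      · intro x hx y hy
        rw [hmem] at hx hy
        obtain ⟨σ, e1, e2⟩ := h2 x hx y hy
        exact ⟨σ, e1, e2⟩
      · intro N hN k hk
        apply h3 N hN
        have hn := congrArg norm hk
        rw [norm_pow, (hmain j).2.1 x hx, norm_zpow, Complex.norm_natCast] at hn
        have hq0 : (0 : ℝ) < Fintype.card F := by exact_mod_cast Fintype.card_pos
        have h4 : (Fintype.card F : ℝ) ^ (N : ℤ) = (Fintype.card F : ℝ) ^ (2 * k) := by
          have h4 : (Real.sqrt (Fintype.card F) ^ N) ^ 2 = ((Fintype.card F : ℝ) ^ k) ^ 2 := by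
            rw [hn]
          rw [← pow_mul, mul_comm N 2, pow_mul, Real.sq_sqrt hq0.le] at h4
          rw [zpow_natCast, h4, mul_comm 2 k, zpow_mul]
          norm_cast
        have h5 : (N : ℤ) = 2 * k := by
          refine zpow_right_injective₀ hq0 ?_ h4
          exact_mod_cast (by omega : Fintype.card F ≠ 1)
        rw [mul_comm 2 N, pow_mul, hk, ← zpow_natCast (Fintype.card F : ℂ) N, h5, mul_comm 2 k,
          zpow_mul]
        norm_cast
  · intro j
    obtain ⟨σ, h1, h2, x, hx, h3⟩ := hind j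
    refine ⟨σ, h1, ?_, x, (hmem j x).2 hx, h3⟩
    intro i hi y hy
    rw [hmem] at hy
    exact h2 i hi y hy
  · rw [← hspan]
    congr 1
    ext v
    constructor
    · rintro ⟨μ, ⟨j, hj | hj⟩, hv⟩
      · rw [hmem] at hj
        exact ⟨j, μ, hj, Or.inl hv⟩
      · rw [hmem] at hj
        refine ⟨j, _, hj, Or.inr ?_⟩
        have hμ : μ ≠ 0 := by
          rintro rfl
          rw [div_zero] at hj
          exact (hA j).1 hj
        rw [hv]
        congr 1
        field_simp
    · rintro ⟨j, α, hα, hv | hv⟩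
      · exact ⟨α, ⟨j, Or.inl ((hmem j α).2 hα)⟩, hv⟩
      · refine ⟨_, ⟨j, Or.inr ?_⟩, hv⟩
        rw [hmem]
        have hα0 : α ≠ 0 := fun h => (hA j).1 (h ▸ hα)
        have : (Fintype.card F : ℂ) / ((Fintype.card F : ℂ) / α) = α := by field_simp
        rw [this]
        exact hα

end Pool.Agent.L5helper29.AS
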