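import Pool.Agent.L5helper29.AS.Shift
import Pool.Agent.Y951.WP.Lam

/-!
# The last coefficient of the `L`-function of `ψ (f x)`
-/

set_option autoImplicit false
set_option linter.all false

namespace Pool.Agent.L5helper29.AS

open Polynomial Finset
open Pool.Agent.Y951.WP Pool.Agent.H341R2.Sharp Pool.Agent.H498R2.Kl

section low

variable {F : Type*} [Field F]

/-- the polynomial of degree less than `k` with given coefficients -/
noncomputable def low (k : ℕ) (c : Fin k → F) : F[X] := ∑ i : Fin k, C (c i) * X ^ (i : ℕ)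

lemma low_coeff {k : ℕ} (c : Fin k → F) (i : ℕ) :
    (low k c).coeff i = if h : i < k then c ⟨i, h⟩ else 0 := by
  unfold low
  rw [finsetSum_coeff]
  simp_rw [coeff_C_mul_X_pow]
  split_ifs with h
  · rw [sum_eq_single ⟨i, h⟩]
    · simp
    · intro j _ hj
      rw [if_neg]
      intro h'
      apply hj
      ext
      exact h'.symm
    · intro h'
      exact absurd (mem_univ _) h'
  · apply sum_eq_zero
    intro j _
    rw [if_neg]
    have := j.2
    omega

lemma low_natDegree {k : ℕ} (hk : 0 < k) (c : Fin k → F) : (low k c).natDegree < k := by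
  have h1 : (low k c).degree < k := degree_sum_fin_lt c
  by_cases h0 : low k c = 0
  · rw [h0, natDegree_zero]
    exact hk
  · rw [degree_eq_natDegree h0] at h1
    exact_mod_cast h1

lemma low_add {k : ℕ} (c c' : Fin k → F) : low k (c + c') = low k c + low k c' := by
  ext i
  rw [coeff_add, low_coeff, low_coeff, low_coeff]
  split_ifs
  · rfl
  · rw [add_zero]

lemma low_zero_len (c : Fin 0 → F) : low 0 c = 0 := by
  unfold low
  simp

lemma low_snoc {k : ℕ} (c : Fin (k + 1) → F) :
    low (k + 1) c = C (c (Fin.last k)) * X ^ k + low k (fun i => c i.castSucc) := by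
  unfold low
  rw [Fin.sum_univ_castSucc]
  simp only [Fin.val_castSucc, Fin.val_last]
  rw [add_comm]

end low

section Lam

variable {F : Type*} [Field F]

/-- the linear form `g ↦ [t^{n+1}] (t^n f'(1/t)) (t^n g (1/t)) / (t^n h (1/t))` -/
noncomputable def lam (f : F[X]) (n k : ℕ) (h : F[X]) : (Fin k → F) →+ F where
  toFun c := - PowerSeries.coeff (n + 1) (rf n (derivative f) * (rf n (low k c) * (rv h)⁻¹))
  map_zero' := by
    have : low k (0 : Fin k → F) = 0 := by
      ext i
      rw [low_coeff]
      split_ifs <;> simp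
    rw [this]
    simp [rf]
  map_add' c c' := by
    rw [low_add, rf_add, add_mul, mul_add, map_add]
    ring

lemma lam_smul (f : F[X]) (n k : ℕ) (h : F[X]) (s : F) (c : Fin k → F) :
    lam f n k h (s • c) = s * lam f n k h c := by
  have h1 : low k (s • c) = C s * low k c := by
    ext i
    rw [coeff_C_mul, low_coeff, low_coeff]
    split_ifs
    · rfl
    · rw [mul_zero]
  change - PowerSeries.coeff (n + 1) (rf n (derivative f) * (rf n (low k (s • c)) * (rv h)⁻¹)) =
    s * - PowerSeries.coeff (n + 1) (rf n (derivative f) * (rf n (low k c) * (rv h)⁻¹))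
  rw [h1, rf_C_mul]
  have : rf n (derivative f) * (PowerSeries.C s * rf n (low k c) * (rv h)⁻¹) =
    PowerSeries.C s * (rf n (derivative f) * (rf n (low k c) * (rv h)⁻¹)) := by ring
  rw [this, PowerSeries.coeff_C_mul]
  ring

/-- if the linear form vanishes then `h` agrees with the critical polynomial in high degrees -/
lemma lam_zero {f h : F[X]} {n k : ℕ} (hf : f.natDegree = n + 1) (hd : ((n + 1 : ℕ) : F) ≠ 0)
    (hh : h.Monic) (hn : h.natDegree = n) (hk : k ≤ n) (h0 : ∀ c, lam f n k h c = 0) :
    ∀ i ≤ k, h.coeff (n - i) = (crit f).coeff (n - i) := by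
  set b : PowerSeries F := rf n (derivative f) * (rv h)⁻¹ with hb
  have hcm := crit_monic hf hd
  have hcn := crit_natDegree hf hd
  have hbi : ∀ j, 1 ≤ j → j ≤ k → PowerSeries.coeff j b = 0 := by
    intro j hj1 hjk
    have h1 := h0 (Pi.single ⟨j - 1, by omega⟩ 1)
    change - PowerSeries.coeff (n + 1) (rf n (derivative f) *
      (rf n (low k (Pi.single ⟨j - 1, by omega⟩ 1)) * (rv h)⁻¹)) = 0 at h1
    have h2 : low k (Pi.single ⟨j - 1, by omega⟩ (1 : F) : Fin k → F) = X ^ (j - 1) := by
      ext i
      rw [low_coeff, coeff_X_pow]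
      split_ifs with h3 h4 h4
      · rw [Pi.single_apply, if_pos]
        ext
        exact h4
      · rw [Pi.single_apply, if_neg]
        intro h5
        apply h4
        exact congrArg Fin.val h5
      · omega
      · rfl
    have h3 : rf n (X ^ (j - 1) : F[X]) = PowerSeries.X ^ (n + 1 - j) := by
      have : (X ^ (j - 1) : F[X]) = C 1 * X ^ (j - 1) := by rw [C_1, one_mul]
      unfold rf
      rw [this, reflect_C_mul_X_pow, revAt_le (by omega), C_1, one_mul, Polynomial.coe_pow,
        Polynomial.coe_X]
      congr 1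
      omega
    rw [h2, h3] at h1
    have h4 : rf n (derivative f) * (PowerSeries.X ^ (n + 1 - j) * (rv h)⁻¹) =
        PowerSeries.X ^ (n + 1 - j) * b := by
      rw [hb]; ring
    rw [h4] at h1
    have h5 := PowerSeries.coeff_X_pow_mul b (n + 1 - j) j
    have h6 : j + (n + 1 - j) = n + 1 := by omega
    rw [h6] at h5
    rw [h5] at h1
    exact neg_eq_zero.1 h1
  have hb0 : PowerSeries.coeff 0 b = (f.natDegree : F) * f.leadingCoeff := by
    rw [hb, PowerSeries.coeff_zero_eq_constantCoeff, map_mul, PowerSeries.constantCoeff_inv,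
      rv_const hh, inv_one, mul_one, rf_der hf hd, map_mul, rv_const hcm, mul_one,
      PowerSeries.constantCoeff_C]
  intro i hi
  have h1 : rf n (derivative f) = b * rv h := by
    rw [hb, mul_assoc, mul_comm _ (rv h), rv_inv hh, mul_one]
  have h2 : PowerSeries.coeff i (rf n (derivative f)) =
      (f.natDegree : F) * f.leadingCoeff * PowerSeries.coeff i (rv h) := by
    rw [h1, PowerSeries.coeff_mul, sum_eq_single (0, i)]
    · rw [hb0]
    · rintro ⟨a, c⟩ hac hne
      rw [HasAntidiagonal.mem_antidiagonal] at hac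
      simp only at hac ⊢
      rw [hbi a, zero_mul]
      · rcases Nat.eq_zero_or_pos a with h3 | h3
        · exfalso
          apply hne
          subst h3
          rw [zero_add] at hac
          rw [hac]
        · exact h3
      · omega
    · intro h3
      exact absurd (HasAntidiagonal.mem_antidiagonal.2 (zero_add i)) h3
  rw [rf_der hf hd, PowerSeries.coeff_C_mul] at h2
  have h3 := mul_left_cancel₀ (lead_ne hf hd) h2
  rw [← rf_eq_rv hcn, ← rf_eq_rv hn, coeff_rf _ (by omega), coeff_rf _ (by omega)] at h3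
  exact h3.symm

end Lam

section Det

variable {F : Type*} [Field F] [Fintype F] [DecidableEq F]

/-- **Localization**: the sum over all monic polynomials of degree `n` only sees those which agree
with the critical polynomial in high degrees. -/
theorem AG_local {ψ : AddChar F ℂ} (hψ : ψ.IsPrimitive) {f : F[X]} {n k : ℕ}
    (hf : f.natDegree = n + 1) (hd : ((n + 1 : ℕ) : F) ≠ 0) (hk : 2 * k ≤ n) :
    AG (lamP ψ f) n = ∑ c : Fin (n - k) → F, ψ (T f (crit f + low (n - k) c)) := by
  classical
  have hcm := crit_monic hf hd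
  have hcn := crit_natDegree hf hd
  rcases Nat.eq_zero_or_pos n with hn0 | hn0
  · have hk0 : k = 0 := by omega
    subst hk0
    subst hn0
    have e1 : crit f = 1 := by
      have := mem_Mon.2 ⟨hcm, hcn⟩
      rw [Mon_zero, mem_singleton] at this
      exact this
    unfold AG
    rw [Mon_zero, sum_singleton]
    have e2 : ∀ c : Fin (0 - 0) → F, low (0 - 0) c = 0 := fun c => low_zero_len c
    simp_rw [e2, add_zero, e1]
    rw [sum_const, card_univ, Fintype.card_fun]
    simp [lamP]
  -- the shift
  have hsh : ∀ (c : Fin k → F) (h : F[X]), h ∈ Mon F n → h + low k c ∈ Mon F n ∧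
      T f (h + low k c) = T f h + lam f n k h c := by
    intro c h hh
    rw [mem_Mon] at hh
    rcases Nat.eq_zero_or_pos k with hk0 | hk0
    · subst hk0
      have : c = 0 := Subsingleton.elim _ _
      rw [this, map_zero, low_zero_len, add_zero, add_zero]
      exact ⟨mem_Mon.2 hh, rfl⟩
    · have h1 := low_natDegree hk0 c
      obtain ⟨h2, h3, _⟩ := rv_add hh.1 hh.2 (by omega : (low k c).natDegree < n)
      refine ⟨mem_Mon.2 ⟨h2, h3⟩, ?_⟩
      rw [T_low hf hh.1 hh.2 (by omega), sub_eq_add_neg]
      rfl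
  have hperm : ∀ c : Fin k → F, ∑ h ∈ Mon F n, lamP ψ f h =
      ∑ h ∈ Mon F n, lamP ψ f (h + low k c) := by
    intro c
    symm
    have hneg : ∀ c : Fin k → F, low k (-c) = - low k c := by
      intro c
      have := low_add c (-c)
      rw [add_neg_cancel] at this
      have h0 : low k (0 : Fin k → F) = 0 := by
        have := low_add (0 : Fin k → F) 0
        rw [add_zero] at this
        exact left_eq_add.1 this
      rw [h0] at this
      exact (neg_eq_of_add_eq_zero_right this.symm).symm
    refine sum_bij' (fun h _ => h + low k c) (fun h _ => h + low k (-c))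
      (fun h hh => (hsh c h hh).1) (fun h hh => (hsh (-c) h hh).1) ?_ ?_ ?_
    · intro h _
      simp only [hneg]
      ring
    · intro h _
      simp only [hneg]
      ring
    · intro h _
      rfl
  -- the characters
  have hchar : ∀ h : F[X], ∑ c : Fin k → F, ψ (lam f n k h c) =
      if (∀ c, lam f n k h c = 0) then ((Fintype.card F : ℂ) ^ k) else 0 := by
    intro h
    have h1 := AddChar.sum_eq_ite (ψ.compAddMonoidHom (lam f n k h))
    have h2 : (ψ.compAddMonoidHom (lam f n k h) = 0) ↔ (∀ c, lam f n k h c = 0) := by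
      constructor
      · intro h3 c
        by_contra h4
        apply hψ h4
        ext s
        have h5 := DFunLike.congr_fun h3 (s • c)
        simp only [AddChar.compAddMonoidHom_apply, AddChar.zero_apply] at h5
        rw [lam_smul] at h5
        rw [AddChar.mulShift_apply, mul_comm, h5, AddChar.one_apply]
      · intro h3
        ext c
        simp [h3 c]
    simp only [AddChar.compAddMonoidHom_apply] at h1
    rw [h1, Fintype.card_fun, Fintype.card_fin]
    by_cases h3 : ∀ c, lam f n k h c = 0
    · rw [if_pos (h2.2 h3), if_pos h3]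
      push_cast
      rfl
    · rw [if_neg (fun h4 => h3 (h2.1 h4)), if_neg h3]
  have hq : (Fintype.card F : ℂ) ^ k ≠ 0 := pow_ne_zero _ (by exact_mod_cast Fintype.card_ne_zero)
  have h1 : (Fintype.card F : ℂ) ^ k * AG (lamP ψ f) n =
      (Fintype.card F : ℂ) ^ k * ∑ h ∈ (Mon F n).filter (fun h => ∀ c, lam f n k h c = 0),
        lamP ψ f h := by
    have e1 : (Fintype.card F : ℂ) ^ k * AG (lamP ψ f) n =
        ∑ c : Fin k → F, ∑ h ∈ Mon F n, lamP ψ f (h + low k c) := by
      unfold AG
      rw [← sum_congr rfl fun c _ => hperm c, sum_const, card_univ, Fintype.card_fun,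
        Fintype.card_fin, nsmul_eq_mul]
      push_cast
      rfl
    rw [e1, sum_comm, sum_filter, mul_sum]
    apply sum_congr rfl
    intro h hh
    have e2 : ∀ c : Fin k → F, lamP ψ f (h + low k c) = lamP ψ f h * ψ (lam f n k h c) := by
      intro c
      unfold lamP
      rw [(hsh c h hh).2, AddChar.map_add_eq_mul]
    rw [sum_congr rfl fun c _ => e2 c, ← mul_sum, hchar]
    split_ifs
    · ring
    · ring
  have h2 := mul_left_cancel₀ hq h1
  rw [h2]
  -- the parametrization
  have hlowdeg : ∀ c : Fin (n - k) → F, (low (n - k) c).natDegree < n - k :=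
    fun c => low_natDegree (by omega) c
  refine sum_bij' (fun h _ => fun i => (h - crit f).coeff (i : ℕ))
    (fun c _ => crit f + low (n - k) c) ?_ ?_ ?_ ?_ ?_
  · intro h _
    exact mem_univ _
  · intro c _
    obtain ⟨e1, e2, e3⟩ := rv_add hcm hcn (by have := hlowdeg c; omega :
      (low (n - k) c).natDegree < n)
    rw [mem_filter, mem_Mon]
    refine ⟨⟨e1, e2⟩, ?_⟩
    intro c'
    change - PowerSeries.coeff (n + 1) (rf n (derivative f) *
      (rf n (low k c') * (rv (crit f + low (n - k) c))⁻¹)) = 0
    rcases Nat.eq_zero_or_pos k with hk0 | hk0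
    · subst hk0
      rw [low_zero_len]
      simp [rf]
    have e4 := rv_inv e1
    have e5 : rv (crit f) = rv (crit f + low (n - k) c) - rf n (low (n - k) c) := by
      rw [e3]; ring
    have e6 : rf n (derivative f) * (rf n (low k c') * (rv (crit f + low (n - k) c))⁻¹) =
        PowerSeries.C ((f.natDegree : F) * f.leadingCoeff) * rf n (low k c') -
        PowerSeries.C ((f.natDegree : F) * f.leadingCoeff) *
          (rf n (low (n - k) c) * rf n (low k c') * (rv (crit f + low (n - k) c))⁻¹) := by
      rw [rf_der hf hd, e5]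
      calc _ = PowerSeries.C ((f.natDegree : F) * f.leadingCoeff) * rf n (low k c') *
            (rv (crit f + low (n - k) c) * (rv (crit f + low (n - k) c))⁻¹) -
          PowerSeries.C ((f.natDegree : F) * f.leadingCoeff) *
          (rf n (low (n - k) c) * rf n (low k c') * (rv (crit f + low (n - k) c))⁻¹) := by ring
        _ = _ := by rw [e4, mul_one]
    have hl1 := low_natDegree hk0 c'
    have hl2 := hlowdeg c
    have e7 : (PowerSeries.X : PowerSeries F) ^ (n + 2) ∣
        rf n (low (n - k) c) * rf n (low k c') * (rv (crit f + low (n - k) c))⁻¹ := by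
      refine Dvd.dvd.mul_right ?_ _
      have e8 : (PowerSeries.X : PowerSeries F) ^ (n + 2) ∣
          (PowerSeries.X : PowerSeries F) ^ (k + 1) * (PowerSeries.X : PowerSeries F) ^ (n - k + 1) := by
        rw [← pow_add]
        exact pow_dvd_pow _ (by omega)
      exact e8.trans (mul_dvd_mul (rf_dvd (by omega)) (rf_dvd (by omega)))
    rw [e6, map_sub, PowerSeries.coeff_C_mul, PowerSeries.coeff_C_mul,
      coeff_rf_big (by omega) (Nat.lt_succ_self n), mul_zero,
      PowerSeries.X_pow_dvd_iff.1 e7 (n + 1) (by omega), mul_zero, sub_zero, neg_zero]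
  · intro h hh
    rw [mem_filter, mem_Mon] at hh
    obtain ⟨⟨h3, h4⟩, h5⟩ := hh
    have h6 := lam_zero hf hd h3 h4 (by omega) h5
    ext i
    rw [coeff_add, low_coeff]
    split_ifs with h7
    · rw [coeff_sub]
      ring
    · rw [add_zero]
      by_cases h8 : i ≤ n
      · have := h6 (n - i) (by omega)
        rw [show n - (n - i) = i by omega] at this
        exact this.symm
      · rw [coeff_eq_zero_of_natDegree_lt (by omega), coeff_eq_zero_of_natDegree_lt (by omega)]
  · intro c _
    ext i
    rw [add_sub_cancel_left, low_coeff, dif_pos i.2]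
  · intro h hh
    unfold lamP
    rw [mem_filter, mem_Mon] at hh
    obtain ⟨⟨h3, h4⟩, h5⟩ := hh
    have h6 := lam_zero hf hd h3 h4 (by omega) h5
    congr 2
    ext i
    rw [coeff_add, low_coeff]
    split_ifs with h7
    · rw [coeff_sub]
      ring
    · rw [add_zero]
      by_cases h8 : i ≤ n
      · have := h6 (n - i) (by omega)
        rw [show n - (n - i) = i by omega] at this
        exact this
      · rw [coeff_eq_zero_of_natDegree_lt (by omega), coeff_eq_zero_of_natDegree_lt (by omega)]

/-- **The last coefficient in even degree.** -/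
theorem AG_even {ψ : AddChar F ℂ} (hψ : ψ.IsPrimitive) {f : F[X]} {m : ℕ} (hm : 1 ≤ m)
    (hf : f.natDegree = 2 * m + 1) (hd : ((2 * m + 1 : ℕ) : F) ≠ 0) :
    AG (lamP ψ f) (2 * m) = (Fintype.card F : ℂ) ^ m * ψ (T f (crit f)) := by
  rw [AG_local hψ hf hd (k := m) le_rfl]
  have h1 : ∀ c : Fin (2 * m - m) → F, ψ (T f (crit f + low (2 * m - m) c)) = ψ (T f (crit f)) := by
    intro c
    rw [T_const hf hd]
    have := low_natDegree (by omega : 0 < 2 * m - m) c
    omega
  rw [sum_congr rfl fun c _ => h1 c, sum_const, card_univ, Fintype.card_fun, Fintype.card_fin,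
    nsmul_eq_mul]
  have h2 : 2 * m - m = m := by omega
  rw [h2]
  push_cast
  rfl

/-- **The last coefficient in odd degree.** -/
theorem AG_odd {ψ : AddChar F ℂ} (hψ : ψ.IsPrimitive) {f : F[X]} {m : ℕ} (h2 : (2 : F) ≠ 0)
    (hf : f.natDegree = 2 * m + 1 + 1) (hd : ((2 * m + 1 + 1 : ℕ) : F) ≠ 0) :
    AG (lamP ψ f) (2 * m + 1) = (Fintype.card F : ℂ) ^ m * ψ (T f (crit f)) *
      ∑ s : F, ψ ((f.natDegree : F) * f.leadingCoeff / 2 * s ^ 2) := by
  rw [AG_local hψ hf hd (k := m) (by omega)]
  have e0 : 2 * m + 1 - m = m + 1 := by omega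
  rw [e0]
  have h1 : ∀ c : Fin (m + 1) → F, ψ (T f (crit f + low (m + 1) c)) =
      ψ (T f (crit f)) * ψ ((f.natDegree : F) * f.leadingCoeff / 2 * (c (Fin.last m)) ^ 2) := by
    intro c
    rw [low_snoc, ← add_assoc, T_mid_low hf hd rfl h2, AddChar.map_add_eq_mul]
    rcases Nat.eq_zero_or_pos m with h3 | h3
    · left
      subst h3
      exact low_zero_len _
    · right
      exact low_natDegree h3 _
  rw [sum_congr rfl fun c _ => h1 c, ← mul_sum]
  have h3 : ∑ c : Fin (m + 1) → F, ψ ((f.natDegree : F) * f.leadingCoeff / 2 * (c (Fin.last m)) ^ 2) =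
      (Fintype.card F : ℂ) ^ m * ∑ s : F, ψ ((f.natDegree : F) * f.leadingCoeff / 2 * s ^ 2) := by
    have h4 := Finset.prod_univ_sum (fun _ : Fin (m + 1) => (univ : Finset F))
      (fun i s => if i = Fin.last m then ψ ((f.natDegree : F) * f.leadingCoeff / 2 * s ^ 2)
        else (1 : ℂ))
    rw [Fintype.piFinset_univ] at h4
    have h5 : ∀ c : Fin (m + 1) → F, ∏ i : Fin (m + 1), (if i = Fin.last m then
        ψ ((f.natDegree : F) * f.leadingCoeff / 2 * (c i) ^ 2) else (1 : ℂ)) =
        ψ ((f.natDegree : F) * f.leadingCoeff / 2 * (c (Fin.last m)) ^ 2) := by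
      intro c
      rw [prod_ite_eq' univ (Fin.last m) (fun i => ψ ((f.natDegree : F) * f.leadingCoeff / 2 * (c i) ^ 2)),
        if_pos (mem_univ _)]
    rw [sum_congr rfl fun c _ => h5 c] at h4
    rw [← h4, Fin.prod_univ_castSucc]
    simp_rw [if_true]
    congr 1
    have h6 : ∀ i : Fin m, (∑ s : F, (if i.castSucc = Fin.last m then
        ψ ((f.natDegree : F) * f.leadingCoeff / 2 * s ^ 2) else (1 : ℂ))) = (Fintype.card F : ℂ) := by
      intro i
      simp_rw [if_neg (Fin.castSucc_lt_last i).ne]
      rw [sum_const, card_univ, nsmul_eq_mul, mul_one]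
    rw [prod_congr rfl fun i _ => h6 i, prod_const, card_univ, Fintype.card_fin]
  rw [h3]
  ring

/-- the square of the quadratic Gauss sum -/
theorem gauss_sq {ψ : AddChar F ℂ} (hψ : ψ.IsPrimitive) (h2 : (2 : F) ≠ 0) {κ : F} (hκ : κ ≠ 0) :
    (∑ s : F, ψ (κ * s ^ 2)) ^ 2 = (Fintype.card F : ℂ) ∨
    (∑ s : F, ψ (κ * s ^ 2)) ^ 2 = - (Fintype.card F : ℂ) := by
  have hchar : ringChar F ≠ 2 := by
    intro h
    apply h2
    have := ringChar.Nat.cast_ringChar (R := F)
    rw [h] at this
    exact_mod_cast this
  have hψκ : (ψ.mulShift κ).IsPrimitive := by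
    intro a ha
    rw [AddChar.mulShift_mulShift]
    exact hψ (mul_ne_zero hκ ha)
  set χ : MulChar F ℂ := (quadraticChar F).ringHomComp (Int.castRingHom ℂ) with hχ
  have hχ1 : χ ≠ 1 := by
    intro h
    apply quadraticChar_ne_one hchar
    ext a
    have := congrArg (fun χ : MulChar F ℂ => χ a) h
    simp only [hχ, MulChar.ringHomComp_apply] at this
    have h3 : (1 : MulChar F ℂ) (a : F) = 1 := MulChar.one_apply_coe a
    rw [h3] at this
    rw [MulChar.one_apply_coe]
    rw [eq_intCast] at this
    exact_mod_cast this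
  have hχq : χ.IsQuadratic := (quadraticChar_isQuadratic F).comp _
  have h3 := gaussSum_sq hχ1 hχq hψκ
  have h4 : ∑ s : F, ψ (κ * s ^ 2) = gaussSum χ (ψ.mulShift κ) := by
    have e1 : ∑ s : F, ψ (κ * s ^ 2) = ∑ a : F, ∑ s ∈ univ.filter (fun s : F => s ^ 2 = a),
        ψ (κ * s ^ 2) := by
      rw [sum_fiberwise]
    have e2 : ∀ a : F, ∑ s ∈ univ.filter (fun s : F => s ^ 2 = a), ψ (κ * s ^ 2) =
        (χ a + 1) * ψ (κ * a) := by
      intro a
      have e3 : ∀ s ∈ univ.filter (fun s : F => s ^ 2 = a), ψ (κ * s ^ 2) = ψ (κ * a) := by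
        intro s hs
        rw [mem_filter] at hs
        rw [hs.2]
      rw [sum_congr rfl e3, sum_const, nsmul_eq_mul]
      congr 1
      have e4 := quadraticChar_card_sqrts hchar a
      have e5 : (univ.filter (fun s : F => s ^ 2 = a)) = {x : F | x ^ 2 = a}.toFinset := by
        ext s
        simp
      rw [e5]
      have e6 := congrArg (fun z : ℤ => (z : ℂ)) e4
      push_cast at e6
      rw [e6]
      rfl
    rw [e1, sum_congr rfl fun a _ => e2 a]
    unfold gaussSum
    simp_rw [add_mul, one_mul]
    rw [sum_add_distrib]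
    have e7 : ∑ a : F, ψ (κ * a) = 0 := by
      have := AddChar.sum_mulShift κ hψ
      rw [if_neg hκ, Nat.cast_zero] at this
      rw [← this]
      exact sum_congr rfl fun a _ => by rw [mul_comm]
    rw [e7, add_zero]
    rfl
  rw [h4, h3]
  have h5 : χ (-1) = 1 ∨ χ (-1) = -1 := by
    have h6 := hχq (-1)
    rcases h6 with h6 | h6 | h6
    · exfalso
      have : IsUnit (-1 : F) := isUnit_one.neg
      have h7 : χ (-1) * χ (-1) = 1 := by
        rw [← map_mul, neg_mul_neg, one_mul, map_one]
      rw [h6, zero_mul] at h7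
      exact zero_ne_one h7
    · exact Or.inl h6
    · exact Or.inr h6
  rcases h5 with h5 | h5
  · left
    rw [h5, one_mul]
  · right
    rw [h5]
    ring

end Det

end Pool.Agent.L5helper29.AS
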