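import Mathlib

/-!
# Galois-stable relation spaces
-/

set_option autoImplicit false
set_option linter.all false

namespace Pool.Agent.L5helper29.AS

open Finset

section Irr

variable {G : Type*} [Group G]

/-- The augmentation part of the permutation representation is irreducible: a stable subspace which
contains a nonzero function with sum zero contains all the differences of points. -/
def Irr (G : Type*) [Group G] (Ω : Type*) [Fintype Ω] [DecidableEq Ω] [MulAction G Ω] : Prop :=
  ∀ S : Submodule ℚ (Ω → ℚ), (∀ (g : G), ∀ e ∈ S, (fun x => e (g⁻¹ • x)) ∈ S) →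
    (∃ e ∈ S, e ≠ 0 ∧ ∑ x, e x = 0) →
    ∀ x y : Ω, (Pi.single x (1 : ℚ) : Ω → ℚ) - Pi.single y 1 ∈ S

variable {Ω : Type*} [Fintype Ω] [DecidableEq Ω] [MulAction G Ω]

lemma single_smul (g : G) (x : Ω) :
    (fun z => (Pi.single x (1 : ℚ) : Ω → ℚ) (g⁻¹ • z)) = Pi.single (g • x) 1 := by
  funext z
  rw [Pi.single_apply, Pi.single_apply]
  congr 1
  rw [eq_iff_iff, inv_smul_eq_iff]

/-- doubly transitive actions -/
theorem irr_of_two (h2 : ∀ x y x' y' : Ω, x ≠ y → x' ≠ y' → ∃ g : G, g • x = x' ∧ g • y = y') :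
    Irr G Ω := by
  classical
  intro S hS ⟨e, heS, he0, hsum⟩
  obtain ⟨x, hx⟩ : ∃ x, e x ≠ 0 := by
    by_contra hn
    push Not at hn
    exact he0 (funext hn)
  set P : Finset (Equiv.Perm Ω) := univ.filter
    (fun p => (∃ g : G, p = MulAction.toPerm g) ∧ p x = x) with hP
  have h1P : (1 : Equiv.Perm Ω) ∈ P := by
    rw [hP, mem_filter]
    refine ⟨mem_univ _, ⟨1, ?_⟩, rfl⟩
    ext z
    simp
  set E : Ω → ℚ := ∑ p ∈ P, (fun z => e (p⁻¹ z)) with hE
  have hES : E ∈ S := by
    apply Submodule.sum_mem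
    intro p hp
    rw [hP, mem_filter] at hp
    obtain ⟨_, ⟨g, rfl⟩, _⟩ := hp
    exact hS g e heS
  have hEx : E x = P.card * e x := by
    rw [hE, Finset.sum_apply]
    have : ∀ p ∈ P, e (p⁻¹ x) = e x := by
      intro p hp
      rw [hP, mem_filter] at hp
      congr 1
      rw [Equiv.Perm.inv_eq_iff_eq]
      exact hp.2.2.symm
    rw [sum_congr rfl this, sum_const, nsmul_eq_mul]
  have hEx0 : E x ≠ 0 := by
    rw [hEx]
    refine mul_ne_zero ?_ hx
    exact_mod_cast (card_pos.2 ⟨1, h1P⟩).ne'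
  have hEy : ∀ y y' : Ω, y ≠ x → y' ≠ x → E y = E y' := by
    intro y y' hy hy'
    obtain ⟨g, hg1, hg2⟩ := h2 x y x y' hy.symm hy'.symm
    rw [hE, Finset.sum_apply, Finset.sum_apply]
    refine sum_bij' (fun p _ => MulAction.toPerm g * p) (fun p _ => (MulAction.toPerm g)⁻¹ * p)
      ?_ ?_ ?_ ?_ ?_
    · intro p hp
      rw [hP, mem_filter] at hp ⊢
      obtain ⟨_, ⟨g', rfl⟩, hp⟩ := hp
      refine ⟨mem_univ _, ⟨g * g', ?_⟩, ?_⟩
      · ext z
        simp [mul_smul]
      · rw [Equiv.Perm.mul_apply, hp]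
        exact hg1
    · intro p hp
      rw [hP, mem_filter] at hp ⊢
      obtain ⟨_, ⟨g', rfl⟩, hp⟩ := hp
      refine ⟨mem_univ _, ⟨g⁻¹ * g', ?_⟩, ?_⟩
      · ext z
        simp [mul_smul]
      · rw [Equiv.Perm.mul_apply, hp, Equiv.Perm.inv_eq_iff_eq]
        exact hg1.symm
    · intro p _
      simp
    · intro p _
      simp
    · intro p _
      congr 1
      rw [mul_inv_rev, Equiv.Perm.mul_apply]
      congr 1
      rw [Equiv.Perm.eq_inv_iff_eq]
      exact hg2
  have hEsum : ∑ z, E z = 0 := by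
    rw [hE]
    simp only [Finset.sum_apply]
    rw [sum_comm]
    apply sum_eq_zero
    intro p _
    rw [← hsum]
    exact Equiv.sum_comp p⁻¹ e
  have hstep : ∀ y : Ω, (Pi.single x (1 : ℚ) : Ω → ℚ) - Pi.single y 1 ∈ S := by
    intro y
    by_cases hxy : x = y
    · rw [hxy, sub_self]
      exact S.zero_mem
    obtain ⟨g, hg1, hg2⟩ := h2 x y y x hxy (Ne.symm hxy)
    have hne : E x - E y ≠ 0 := by
      intro h
      have h3 : ∀ z, E z = E x := by
        intro z
        by_cases hz : z = x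
        · rw [hz]
        · rw [hEy z y hz (Ne.symm hxy)]
          exact (sub_eq_zero.1 h).symm
      rw [sum_congr rfl fun z _ => h3 z, sum_const, nsmul_eq_mul] at hEsum
      rcases mul_eq_zero.1 hEsum with h4 | h4
      · have : 0 < (univ : Finset Ω).card := card_pos.2 ⟨x, mem_univ x⟩
        have h5 : (univ : Finset Ω).card = 0 := by exact_mod_cast h4
        omega
      · exact hEx0 h4
    have h3 : E - (fun z => E (g⁻¹ • z)) = (E x - E y) • ((Pi.single x (1 : ℚ) : Ω → ℚ) - Pi.single y 1) := by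
      funext z
      simp only [Pi.sub_apply, Pi.smul_apply, smul_eq_mul, Pi.single_apply]
      by_cases hzx : z = x
      · subst hzx
        have : g⁻¹ • z = y := by rw [inv_smul_eq_iff]; exact hg2.symm
        rw [this, if_pos rfl, if_neg hxy]
        ring
      · by_cases hzy : z = y
        · subst hzy
          have : g⁻¹ • z = x := by rw [inv_smul_eq_iff]; exact hg1.symm
          rw [this, if_neg hzx, if_pos rfl]
          ring
        · rw [if_neg hzx, if_neg hzy]
          have : g⁻¹ • z ≠ x := by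
            intro h
            rw [inv_smul_eq_iff, hg1] at h
            exact hzy h
          rw [hEy z (g⁻¹ • z) hzx this]
          ring
    have h4 : (E x - E y) • ((Pi.single x (1 : ℚ) : Ω → ℚ) - Pi.single y 1) ∈ S := by
      rw [← h3]
      exact S.sub_mem hES (hS g E hES)
    exact (S.smul_mem_iff hne).1 h4
  intro x' y'
  have := S.sub_mem (hstep y') (hstep x')
  have h5 : (Pi.single x' (1 : ℚ) : Ω → ℚ) - Pi.single y' 1 =
      ((Pi.single x (1 : ℚ) : Ω → ℚ) - Pi.single y' 1) - (Pi.single x 1 - Pi.single x' 1) := by ring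
  rw [h5]
  exact this

open Polynomial in
/-- transitive actions on a prime number of points -/
theorem irr_of_prime (hcard : (Fintype.card Ω).Prime) (h1 : ∀ x y : Ω, ∃ g : G, g • x = y) :
    Irr G Ω := by
  classical
  intro S hS ⟨e, heS, he0, hsum⟩
  set ℓ := Fintype.card Ω with hℓ
  haveI : Fact ℓ.Prime := ⟨hcard⟩
  have hpos : 0 < ℓ := hcard.pos
  obtain ⟨x0⟩ : Nonempty Ω := Fintype.card_pos_iff.1 hpos
  -- an element of order `ℓ`
  obtain ⟨g, hg⟩ : ∃ g : G, orderOf (MulAction.toPermHom G Ω g) = ℓ := by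
    let P := (MulAction.toPermHom G Ω).range
    haveI : MulAction.IsPretransitive P Ω := by
      constructor
      intro x y
      obtain ⟨g, hg⟩ := h1 x y
      exact ⟨⟨MulAction.toPermHom G Ω g, ⟨g, rfl⟩⟩, hg⟩
    have h2 : ℓ ∣ Nat.card P := by
      have h3 := MulAction.index_stabilizer_of_transitive P x0
      have h4 := (MulAction.stabilizer P x0).index_dvd_card
      rw [h3, Nat.card_eq_fintype_card] at h4
      exact h4
    obtain ⟨p, hp⟩ := exists_prime_orderOf_dvd_card' ℓ h2
    obtain ⟨g, hg⟩ := p.2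
    refine ⟨g, ?_⟩
    rw [hg, Subgroup.orderOf_coe, hp]
  set σ : Equiv.Perm Ω := MulAction.toPermHom G Ω g with hσ
  have hσa : ∀ z, σ z = g • z := fun z => rfl
  have hcyc : σ.IsCycle := by
    apply Equiv.Perm.isCycle_of_prime_order'
    · rw [hg]; exact hcard
    · rw [hg]; omega
  have hsupp : σ.support = univ := by
    rw [← card_eq_iff_eq_univ, ← hcyc.orderOf, hg]
  have htrans : ∀ z, ∃ i < ℓ, (σ ^ i) x0 = z := by
    intro z
    have h3 := hcyc.exists_pow_eq (x := x0) (y := z)
      (Equiv.Perm.mem_support.1 (by rw [hsupp]; exact mem_univ _))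
      (Equiv.Perm.mem_support.1 (by rw [hsupp]; exact mem_univ _))
    obtain ⟨i, hi⟩ := h3
    refine ⟨i % ℓ, Nat.mod_lt _ hpos, ?_⟩
    rw [← hg, pow_mod_orderOf]
    exact hi
  have hbij : Function.Bijective (fun i : Fin ℓ => (σ ^ (i : ℕ)) x0) := by
    rw [Fintype.bijective_iff_surjective_and_card]
    refine ⟨fun z => ?_, by simp [hℓ]⟩
    obtain ⟨i, hi, hz⟩ := htrans z
    exact ⟨⟨i, hi⟩, hz⟩
  -- the translation operator
  let τ : Module.End ℚ (Ω → ℚ) :=
    { toFun := fun e => fun z => e (g⁻¹ • z)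
      map_add' := fun _ _ => rfl
      map_smul' := fun _ _ => rfl }
  have hτ : ∀ z : Ω, τ (Pi.single z 1) = Pi.single (g • z) 1 := fun z => single_smul g z
  have hτp : ∀ (i : ℕ) (z : Ω), (τ ^ i) (Pi.single z 1) = Pi.single ((σ ^ i) z) 1 := by
    intro i z
    induction i with
    | zero => simp
    | succ i ih =>
      rw [pow_succ', Module.End.mul_apply, ih, hτ, pow_succ', Equiv.Perm.mul_apply, hσa]
  have hτℓ : τ ^ ℓ = 1 := by
    apply LinearMap.ext
    intro e
    have h3 : e = ∑ z, e z • (Pi.single z (1 : ℚ) : Ω → ℚ) := by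
      funext y
      rw [Finset.sum_apply]
      simp [Pi.single_apply]
    rw [h3, map_sum, Module.End.one_apply]
    apply sum_congr rfl
    intro z _
    rw [map_smul, hτp, ← hg, pow_orderOf_eq_one, Equiv.Perm.one_apply]
  have hτS : ∀ e ∈ S, τ e ∈ S := fun e he => hS g e he
  have haev : ∀ (u : ℚ[X]), ∀ e ∈ S, aeval τ u e ∈ S := by
    intro u e he
    induction u using Polynomial.induction_on with
    | C a =>
      rw [aeval_C, Module.algebraMap_end_apply]
      exact S.smul_mem a he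
    | add u v hu hv =>
      rw [map_add, LinearMap.add_apply]
      exact S.add_mem hu hv
    | monomial n a ih =>
      rw [pow_succ, ← mul_assoc, mul_comm, map_mul, aeval_X, Module.End.mul_apply]
      exact hτS _ ih
  -- the polynomial of `e`
  set a : ℚ[X] := ∑ i : Fin ℓ, C (e ((σ ^ (i : ℕ)) x0)) * X ^ (i : ℕ) with ha
  have hae : aeval τ a (Pi.single x0 1) = e := by
    rw [ha, map_sum, LinearMap.sum_apply]
    have h3 : ∀ i : Fin ℓ, (aeval τ (C (e ((σ ^ (i : ℕ)) x0)) * X ^ (i : ℕ) : ℚ[X]))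
        (Pi.single x0 1) = e ((σ ^ (i : ℕ)) x0) • (Pi.single ((σ ^ (i : ℕ)) x0) (1 : ℚ) : Ω → ℚ) := by
      intro i
      rw [map_mul, aeval_C, map_pow, aeval_X, Module.End.mul_apply, hτp,
        Module.algebraMap_end_apply]
    rw [sum_congr rfl fun i _ => h3 i]
    have h4 := hbij.sum_comp (fun z => e z • (Pi.single z (1 : ℚ) : Ω → ℚ))
    rw [h4]
    funext y
    rw [Finset.sum_apply]
    simp [Pi.single_apply]
  have hadeg : a.degree < ℓ := degree_sum_fin_lt _
  have ha0 : a ≠ 0 := by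
    intro h
    rw [h, map_zero, LinearMap.zero_apply] at hae
    exact he0 hae.symm
  have ha1 : a.eval 1 = 0 := by
    rw [ha, eval_finset_sum]
    simp only [eval_mul, eval_C, eval_pow, eval_X, one_pow, mul_one]
    rw [← hsum]
    exact hbij.sum_comp e
  obtain ⟨b, hb⟩ := dvd_iff_isRoot.2 ha1
  have hb0 : b ≠ 0 := by
    rintro rfl
    rw [mul_zero] at hb
    exact ha0 hb
  have hbdeg : b.natDegree < ℓ - 1 := by
    have h3 : a.natDegree = 1 + b.natDegree := by
      rw [hb, natDegree_mul (X_sub_C_ne_zero 1) hb0, natDegree_X_sub_C]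
    rw [degree_eq_natDegree ha0] at hadeg
    have h4 : a.natDegree < ℓ := by exact_mod_cast hadeg
    omega
  have hirr : Irreducible (cyclotomic ℓ ℚ) := cyclotomic.irreducible_rat hpos
  have hcop : IsCoprime (cyclotomic ℓ ℚ) b := by
    rw [(hirr.coprime_iff_not_dvd)]
    intro hdvd
    have h3 := natDegree_le_of_dvd hdvd hb0
    rw [natDegree_cyclotomic, Nat.totient_prime hcard] at h3
    omega
  obtain ⟨v, u, huv⟩ := hcop
  have hid : u * a + v * (X ^ ℓ - 1) = X - 1 := by
    have h3 : cyclotomic ℓ ℚ * (X - 1) = X ^ ℓ - 1 := cyclotomic_prime_mul_X_sub_one ℚ ℓ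
    rw [← h3, hb, C_1]
    linear_combination (X - 1) * huv
  have hkey : (Pi.single (g • x0) (1 : ℚ) : Ω → ℚ) - Pi.single x0 1 ∈ S := by
    have h3 := congrArg (fun w : ℚ[X] => aeval τ w (Pi.single x0 1)) hid
    simp only [map_add, map_mul, map_sub, map_pow, aeval_X, map_one, hτℓ, sub_self, mul_zero,
      add_zero, LinearMap.sub_apply, Module.End.mul_apply, Module.End.one_apply, hτ, hae] at h3
    rw [← h3]
    exact haev u e heS
  have hall : ∀ i : ℕ, (Pi.single ((σ ^ i) x0) (1 : ℚ) : Ω → ℚ) - Pi.single x0 1 ∈ S := by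
    intro i
    induction i with
    | zero => simp
    | succ i ih =>
      have h3 : (τ ^ i) ((Pi.single (g • x0) (1 : ℚ) : Ω → ℚ) - Pi.single x0 1) ∈ S := by
        have := haev (X ^ i) _ hkey
        rwa [map_pow, aeval_X] at this
      rw [map_sub, hτp, hτp] at h3
      have h4 : (σ ^ i) (g • x0) = (σ ^ (i + 1)) x0 := by
        rw [pow_succ, Equiv.Perm.mul_apply, hσa]
      rw [h4] at h3
      have h5 := S.add_mem h3 ih
      have h6 : (Pi.single ((σ ^ (i + 1)) x0) (1 : ℚ) : Ω → ℚ) - Pi.single x0 1 =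
          (Pi.single ((σ ^ (i + 1)) x0) (1 : ℚ) - Pi.single ((σ ^ i) x0) 1) +
          (Pi.single ((σ ^ i) x0) 1 - Pi.single x0 1) := by ring
      rw [h6]
      exact h5
  intro x y
  obtain ⟨i, _, hi⟩ := htrans x
  obtain ⟨j, _, hj⟩ := htrans y
  have h3 := S.sub_mem (hall i) (hall j)
  rw [hi, hj] at h3
  have h6 : (Pi.single x (1 : ℚ) : Ω → ℚ) - Pi.single y 1 =
      (Pi.single x (1 : ℚ) - Pi.single x0 1) - (Pi.single y 1 - Pi.single x0 1) := by ring
  rw [h6]
  exact h3

end Irr

section Main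

variable {G : Type*} [Group G] {J : Type*} [DecidableEq J] (X : J → Type*)
  [∀ j, Fintype (X j)] [∀ j, DecidableEq (X j)] [∀ j, MulAction G (X j)]

/-- **Relation lemma.** -/
theorem rel_const (R : Submodule ℚ (∀ j, X j → ℚ))
    (hR : ∀ (g : G), ∀ m ∈ R, (fun j x => m j (g⁻¹ • x)) ∈ R) (j : J)
    (hirr : Irr G (X j))
    (h2 : ∃ g : G, (∀ i, i ≠ j → ∀ x : X i, g • x = x) ∧ ∃ x : X j, g • x ≠ x)
    (h3 : ¬ ∀ x y : X j, (Pi.single j ((Pi.single x (1 : ℚ) : X j → ℚ) - Pi.single y 1) :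
      ∀ j, X j → ℚ) ∈ R) (m : ∀ j, X j → ℚ) (hm : m ∈ R) (x y : X j) : m j x = m j y := by
  classical
  -- the subspace of relations supported on `X j`
  let S₁ : Submodule ℚ (X j → ℚ) := R.comap (LinearMap.single ℚ (fun j => X j → ℚ) j)
  have hS₁ : ∀ e, e ∈ S₁ ↔ (Pi.single j e : ∀ j, X j → ℚ) ∈ R := fun e => Iff.rfl
  have hS₁g : ∀ (g : G), ∀ e ∈ S₁, (fun x => e (g⁻¹ • x)) ∈ S₁ := by
    intro g e he
    rw [hS₁] at he ⊢
    have h4 := hR g _ he
    have h5 : (fun (j' : J) (x : X j') => (Pi.single j e : ∀ j, X j → ℚ) j' (g⁻¹ • x)) =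
        Pi.single j (fun x => e (g⁻¹ • x)) := by
      funext j' x
      by_cases hj : j' = j
      · subst hj
        rw [Pi.single_eq_same, Pi.single_eq_same]
      · rw [Pi.single_eq_of_ne hj, Pi.single_eq_of_ne hj]
        rfl
    rwa [h5] at h4
  have hS₁0 : ∀ e ∈ S₁, ∑ x, e x = 0 → e = 0 := by
    intro e he hs
    by_contra hne
    exact h3 (fun x y => hirr S₁ hS₁g ⟨e, he, hne, hs⟩ x y)
  have hinv : ∀ g : G, (∀ i, i ≠ j → ∀ x : X i, g • x = x) → ∀ x : X j, m j (g⁻¹ • x) = m j x := by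
    intro g hg x
    have h4 : (Pi.single j (fun x => m j x - m j (g⁻¹ • x)) : ∀ j, X j → ℚ) ∈ R := by
      have h5 := R.sub_mem hm (hR g m hm)
      have h6 : m - (fun (j : J) (x : X j) => m j (g⁻¹ • x)) =
          Pi.single j (fun x => m j x - m j (g⁻¹ • x)) := by
        funext j' x
        by_cases hj : j' = j
        · subst hj
          rw [Pi.single_eq_same]
          rfl
        · rw [Pi.single_eq_of_ne hj]
          have h7 : g⁻¹ • x = x := by
            rw [inv_smul_eq_iff]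
            exact (hg j' hj x).symm
          simp only [Pi.sub_apply, Pi.zero_apply]
          rw [h7, sub_self]
      rwa [h6] at h5
    have h5 := hS₁0 _ ((hS₁ _).2 h4) (by
      rw [sum_sub_distrib, sub_eq_zero]
      exact (Equiv.sum_comp (MulAction.toPerm g⁻¹) (m j)).symm)
    have h6 := congrFun h5 x
    simp only [Pi.zero_apply] at h6
    linarith
  -- the subspace of functions invariant under the elements which act on `X j` only
  let S₂ : Submodule ℚ (X j → ℚ) :=
    { carrier := {e | ∀ g : G, (∀ i, i ≠ j → ∀ x : X i, g • x = x) → ∀ x : X j,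
        e (g⁻¹ • x) = e x}
      add_mem' := by
        intro a b ha hb g hg x
        rw [Pi.add_apply, Pi.add_apply, ha g hg x, hb g hg x]
      zero_mem' := by
        intro g hg x
        rfl
      smul_mem' := by
        intro c a ha g hg x
        rw [Pi.smul_apply, Pi.smul_apply, ha g hg x] }
  have hS₂g : ∀ (g : G), ∀ e ∈ S₂, (fun x => e (g⁻¹ • x)) ∈ S₂ := by
    intro h e he g hg x
    have h4 : ∀ i, i ≠ j → ∀ x : X i, (h⁻¹ * g * h) • x = x := by
      intro i hi x
      rw [mul_smul, mul_smul, hg i hi (h • x), inv_smul_smul]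
    have h5 := he (h⁻¹ * g * h) h4 (h⁻¹ • x)
    change e (h⁻¹ • g⁻¹ • x) = e (h⁻¹ • x)
    rw [← h5]
    congr 1
    simp only [← mul_smul, mul_inv_rev, inv_inv]
    congr 1
    group
  by_contra hne
  have hX : (0 : ℚ) < Fintype.card (X j) := by
    exact_mod_cast Fintype.card_pos_iff.2 ⟨x⟩
  have h4 := hirr S₂ hS₂g ⟨fun x => m j x - (∑ z, m j z) / Fintype.card (X j), ?_, ?_, ?_⟩
  · obtain ⟨g, hg, z, hz⟩ := h2
    have h5 := h4 z (g • z) g hg (g • z)
    rw [inv_smul_smul] at h5
    simp only [Pi.sub_apply, Pi.single_apply] at h5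
    rw [if_neg (Ne.symm hz), if_neg hz] at h5
    norm_num at h5
  · intro g hg x
    simp only
    rw [hinv g hg x]
  · intro h
    apply hne
    have e1 := congrFun h x
    have e2 := congrFun h y
    simp only [Pi.zero_apply] at e1 e2
    linarith
  · rw [sum_sub_distrib, sum_const, card_univ, nsmul_eq_mul]
    field_simp
    ring

end Main

end Pool.Agent.L5helper29.AS
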