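import Pool.Agent.L5helper29.AS.Rel

/-!
# Multiplicative relations between complex numbers
-/

set_option autoImplicit false
set_option linter.all false

namespace Pool.Agent.L5helper29.AS

open Finset

section Rel

variable {J : Type*} [Fintype J] [DecidableEq J]

/-- the monomial with exponents `m` -/
noncomputable def mono (B : J → Finset ℂ) (m : ∀ j, B j → ℤ) : ℂ :=
  ∏ j, ∏ x : B j, (x : ℂ) ^ (m j x)

lemma mono_add {B : J → Finset ℂ} (h0 : ∀ j, ∀ x ∈ B j, x ≠ 0) (m m' : ∀ j, B j → ℤ) :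
    mono B (m + m') = mono B m * mono B m' := by
  unfold mono
  rw [← prod_mul_distrib]
  refine prod_congr rfl fun j _ => ?_
  rw [← prod_mul_distrib]
  refine prod_congr rfl fun x _ => ?_
  exact zpow_add₀ (h0 j x x.2) _ _

lemma mono_smul {B : J → Finset ℂ} (h0 : ∀ j, ∀ x ∈ B j, x ≠ 0) (c : ℤ) (m : ∀ j, B j → ℤ) :
    mono B (fun j x => c * m j x) = mono B m ^ c := by
  unfold mono
  rw [← prod_zpow]
  refine prod_congr rfl fun j _ => ?_
  rw [← prod_zpow]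
  refine prod_congr rfl fun x _ => ?_
  change (x : ℂ) ^ (c * m j x) = _
  rw [mul_comm, zpow_mul]

/-- the space of multiplicative relations, up to powers of `q` and roots of unity -/
def RelSp (B : J → Finset ℂ) (h0 : ∀ j, ∀ x ∈ B j, x ≠ 0) (q : ℂ) (hq : q ≠ 0) :
    Submodule ℚ (∀ j, B j → ℚ) where
  carrier := {m | ∃ N : ℕ, 0 < N ∧ ∃ m' : ∀ j, B j → ℤ, (∀ j x, (N : ℚ) * m j x = m' j x) ∧
    ∃ k : ℤ, mono B m' = q ^ k}
  zero_mem' := ⟨1, one_pos, 0, by intro j x; simp, 0, by simp [mono]⟩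
  add_mem' := by
    rintro a b ⟨N, hN, a', ha, k, hk⟩ ⟨M, hM, b', hb, l, hl⟩
    refine ⟨N * M, Nat.mul_pos hN hM, (fun j x => (M : ℤ) * a' j x) + (fun j x => (N : ℤ) * b' j x),
      ?_, M * k + N * l, ?_⟩
    · intro j x
      simp only [Pi.add_apply]
      push_cast
      rw [← ha, ← hb]
      ring
    · rw [mono_add h0, mono_smul h0, mono_smul h0, hk, hl, zpow_add₀ hq, ← zpow_mul, ← zpow_mul]
      congr 2 <;> ring
  smul_mem' := by
    rintro r a ⟨N, hN, a', ha, k, hk⟩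
    refine ⟨N * r.den, Nat.mul_pos hN r.den_pos, fun j x => r.num * a' j x, ?_, r.num * k, ?_⟩
    · intro j x
      simp only [Pi.smul_apply, smul_eq_mul]
      push_cast
      rw [← ha]
      have : (r.den : ℚ) * r = r.num := by
        rw [mul_comm]
        exact Rat.mul_den_eq_num r
      calc (N : ℚ) * r.den * (r * a j x) = N * ((r.den : ℚ) * r) * a j x := by ring
        _ = _ := by rw [this]; ring
    · rw [mono_smul h0, hk, ← zpow_mul, mul_comm]

lemma mem_RelSp {B : J → Finset ℂ} {h0 : ∀ j, ∀ x ∈ B j, x ≠ 0} {q : ℂ} {hq : q ≠ 0}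
    {m : ∀ j, B j → ℚ} : m ∈ RelSp B h0 q hq ↔
    ∃ N : ℕ, 0 < N ∧ ∃ m' : ∀ j, B j → ℤ, (∀ j x, (N : ℚ) * m j x = m' j x) ∧
    ∃ k : ℤ, mono B m' = q ^ k := Iff.rfl

/-- numbers of absolute value `√q` with a power equal to a power of `q`: the automorphisms of `ℂ`
commute on them -/
theorem comm_of_super {q : ℕ} (hq : 1 < q) {α : ℂ} (hα : ‖α‖ = Real.sqrt q) {N : ℕ} (hN : 0 < N)
    {k : ℤ} (h : α ^ N = (q : ℂ) ^ k) (σ τ : ℂ ≃+* ℂ) : σ (τ α) = τ (σ α) := by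
  have hq0 : (0 : ℝ) < q := by exact_mod_cast (by omega : 0 < q)
  have hs0 : 0 < Real.sqrt q := Real.sqrt_pos.2 hq0
  set s : ℂ := (Real.sqrt q : ℂ) with hs
  have hsne : s ≠ 0 := by
    rw [hs]
    exact_mod_cast hs0.ne'
  have hss : s ^ 2 = (q : ℂ) := by
    rw [hs]
    exact_mod_cast Real.sq_sqrt hq0.le
  have hsσ : ∀ σ : ℂ ≃+* ℂ, σ s = s ∨ σ s = -s := by
    intro σ
    apply sq_eq_sq_iff_eq_or_eq_neg.1
    rw [← map_pow, hss, map_natCast]
  set ζ := α / s with hζ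
  have hαζ : α = s * ζ := by
    rw [hζ]
    field_simp
  have hζ1 : ζ ^ (2 * N) = 1 := by
    have h1 : α ^ (2 * N) = (q : ℂ) ^ (2 * k) := by
      rw [mul_comm 2 N, pow_mul, h, mul_comm 2 k, zpow_mul]
      norm_cast
    have h2 := congrArg norm h
    rw [norm_pow, hα, norm_zpow, Complex.norm_natCast] at h2
    have h3 : (q : ℝ) ^ (N : ℤ) = (q : ℝ) ^ (2 * k) := by
      have h4 : (Real.sqrt q ^ N) ^ 2 = ((q : ℝ) ^ k) ^ 2 := by rw [h2]
      rw [← pow_mul, mul_comm N 2, pow_mul, Real.sq_sqrt hq0.le] at h4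
      rw [zpow_natCast, h4, mul_comm 2 k, zpow_mul]
      norm_cast
    have h5 : (N : ℤ) = 2 * k := by
      refine zpow_right_injective₀ hq0 ?_ h3
      exact_mod_cast (by omega : q ≠ 1)
    rw [hζ, div_pow, h1, ← h5, pow_mul, hss, zpow_natCast]
    exact div_self (pow_ne_zero _ (by exact_mod_cast (by omega : q ≠ 0)))
  haveI : NeZero (2 * N) := ⟨by omega⟩
  have hroot : ζ ^ (2 * N) = 1 := hζ1
  obtain ⟨u, hu⟩ : ∃ u : rootsOfUnity (2 * N) ℂ, ((u : ℂˣ) : ℂ) = ζ := by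
    refine ⟨rootsOfUnity.mkOfPowEq ζ hroot, ?_⟩
    simp
  obtain ⟨a, ha⟩ := map_rootsOfUnity_eq_pow_self σ u
  obtain ⟨b, hb⟩ := map_rootsOfUnity_eq_pow_self τ u
  rw [hu] at ha hb
  have hζc : σ (τ ζ) = τ (σ ζ) := by
    rw [hb, ha, map_pow, map_pow, ha, hb, ← pow_mul, ← pow_mul, mul_comm]
  have hsc : σ (τ s) = τ (σ s) := by
    rcases hsσ σ with h1 | h1 <;> rcases hsσ τ with h2 | h2 <;> simp [h1, h2]
  rw [hαζ, map_mul, map_mul, map_mul, map_mul, hζc, hsc]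

variable {q : ℕ} (hq : 1 < q) (B : J → Finset ℂ) (G : Subgroup (RingAut ℂ))

/-- the hypothesis on the Galois action on one of the sets -/
def GalOK (q : ℕ) (G : Subgroup (RingAut ℂ)) (S : Finset ℂ) : Prop :=
  (3 ≤ S.card ∧ ∀ x ∈ S, ∀ y ∈ S, ∀ x' ∈ S, ∀ y' ∈ S, x ≠ y → x' ≠ y' →
    ∃ σ ∈ G, σ x = x' ∧ σ y = y') ∨
  (S.card.Prime ∧ (∀ x ∈ S, ∀ y ∈ S, ∃ σ ∈ G, σ x = y) ∧
    ∃ x ∈ S, ∀ N : ℕ, 0 < N → ∀ k : ℤ, x ^ N ≠ (q : ℂ) ^ k)

/-- **The multiplicative relations.** -/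
theorem rel_main (hq : 1 < q) (hG : ∀ σ ∈ G, ∀ j, ∀ x ∈ B j, σ x ∈ B j)
    (hnorm : ∀ j, ∀ x ∈ B j, ‖x‖ = Real.sqrt q)
    (hdet : ∀ j, ∃ N : ℕ, 0 < N ∧ ∃ k : ℤ, (∏ x ∈ B j, x) ^ N = (q : ℂ) ^ k)
    (h1 : ∀ j, GalOK q G (B j))
    (h2 : ∀ j, ∃ σ ∈ G, (∀ i, i ≠ j → ∀ x ∈ B i, σ x = x) ∧ ∃ x ∈ B j, σ x ≠ x)
    (m : ∀ j, B j → ℤ) (N : ℕ) (hN : 0 < N) (k : ℤ) (hm : mono B m ^ N = (q : ℂ) ^ k)
    (j : J) (x y : B j) : m j x = m j y := by
  classical
  have hq0 : (0 : ℝ) < q := by exact_mod_cast (by omega : 0 < q)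
  have hqC : (q : ℂ) ≠ 0 := by exact_mod_cast (by omega : q ≠ 0)
  have h0 : ∀ j, ∀ x ∈ B j, x ≠ 0 := by
    intro j x hx h
    have := hnorm j x hx
    rw [h, norm_zero] at this
    exact (Real.sqrt_pos.2 hq0).ne this
  letI act : ∀ j, MulAction G (B j) := fun j =>
    { smul := fun σ x => ⟨(σ : RingAut ℂ) (x : ℂ), hG σ σ.2 j x x.2⟩
      one_smul := fun x => Subtype.ext rfl
      mul_smul := fun σ τ x => Subtype.ext rfl }
  have hsm : ∀ (j : J) (σ : G) (x : B j), ((σ • x : B j) : ℂ) = (σ : RingAut ℂ) (x : ℂ) :=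
    fun j σ x => rfl
  set R := RelSp B h0 (q : ℂ) hqC with hR
  -- stability
  have hRG : ∀ (g : G), ∀ m ∈ R, (fun j (x : B j) => m j (g⁻¹ • x)) ∈ R := by
    rintro g m ⟨M, hM, m', hm', l, hl⟩
    refine ⟨M, hM, fun j x => m' j (g⁻¹ • x), fun j x => hm' j _, l, ?_⟩
    have e1 := congrArg (g : RingAut ℂ) hl
    rw [map_zpow₀, map_natCast] at e1
    rw [← e1]
    unfold mono
    rw [map_prod]
    refine prod_congr rfl fun i _ => ?_
    rw [map_prod]
    refine (Fintype.prod_equiv (MulAction.toPerm g) _ _ ?_).symm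
    intro x
    rw [map_zpow₀]
    simp only [MulAction.toPerm_apply, inv_smul_smul]
    rfl
  -- the determinant
  have hdetR : ∀ j, (Pi.single j (fun _ => (1 : ℚ)) : ∀ j, B j → ℚ) ∈ R := by
    intro j
    obtain ⟨M, hM, l, hl⟩ := hdet j
    refine ⟨M, hM, Pi.single j (fun _ => (M : ℤ)), ?_, l, ?_⟩
    · intro i x
      by_cases hi : i = j
      · subst hi
        rw [Pi.single_eq_same, Pi.single_eq_same]
        simp
      · rw [Pi.single_eq_of_ne hi, Pi.single_eq_of_ne hi]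
        simp
    · rw [← hl]
      unfold mono
      rw [prod_eq_single j]
      · rw [← prod_coe_sort (B j) (fun x => x), ← prod_pow]
        refine prod_congr rfl fun x _ => ?_
        rw [Pi.single_eq_same, zpow_natCast]
      · intro i _ hi
        rw [Pi.single_eq_of_ne hi]
        simp
      · intro h
        exact absurd (mem_univ _) h
  -- irreducibility
  have hirr : ∀ j, Irr G (B j) := by
    intro j
    rcases h1 j with ⟨_, h⟩ | ⟨h, h', _⟩
    · apply irr_of_two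
      intro x y x' y' hxy hxy'
      obtain ⟨σ, hσ, e1, e2⟩ := h x x.2 y y.2 x' x'.2 y' y'.2
        (fun e => hxy (Subtype.ext e)) (fun e => hxy' (Subtype.ext e))
      exact ⟨⟨σ, hσ⟩, Subtype.ext e1, Subtype.ext e2⟩
    · apply irr_of_prime
      · rw [Fintype.card_coe]
        exact h
      · intro x y
        obtain ⟨σ, hσ, e1⟩ := h' x x.2 y y.2
        exact ⟨⟨σ, hσ⟩, Subtype.ext e1⟩
  -- non supersingular
  have hns : ∀ j, ∃ x ∈ B j, ∀ N : ℕ, 0 < N → ∀ k : ℤ, x ^ N ≠ (q : ℂ) ^ k := by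
    intro j
    rcases h1 j with ⟨h, h'⟩ | ⟨_, _, h⟩
    · by_contra hn
      push Not at hn
      obtain ⟨α, hα, β, hβ, γ, hγ, hab, hac, hbc⟩ := Finset.two_lt_card.1 h
      obtain ⟨σ, _, e1, e2⟩ := h' α hα β hβ α hα γ hγ hab hac
      obtain ⟨τ, _, e3, _⟩ := h' α hα β hβ β hβ α hα hab hab.symm
      obtain ⟨M, hM, l, hl⟩ := hn α hα
      have e4 := comm_of_super hq (hnorm j α hα) hM hl σ τ
      rw [e1, e3, e2] at e4
      exact hbc e4.symm
    · exact h
  have h3 : ∀ j, ¬ ∀ x y : B j, (Pi.single j ((Pi.single x (1 : ℚ) : B j → ℚ) - Pi.single y 1) :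
      ∀ j, B j → ℚ) ∈ R := by
    intro j h
    obtain ⟨x, hx, hns⟩ := hns j
    have e1 : (Pi.single j (Pi.single (⟨x, hx⟩ : B j) (1 : ℚ) : B j → ℚ) : ∀ j, B j → ℚ) ∈ R := by
      have e2 : ((Fintype.card (B j) : ℚ)) •
          (Pi.single j (Pi.single (⟨x, hx⟩ : B j) (1 : ℚ) : B j → ℚ) : ∀ j, B j → ℚ) =
          ∑ y : B j, (Pi.single j ((Pi.single (⟨x, hx⟩ : B j) (1 : ℚ) : B j → ℚ) - Pi.single y 1) :
            ∀ j, B j → ℚ) + Pi.single j (fun _ => (1 : ℚ)) := by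
        funext i z
        by_cases hi : i = j
        · subst hi
          simp only [Pi.smul_apply, Pi.add_apply, Finset.sum_apply, Pi.single_eq_same,
            Pi.sub_apply, smul_eq_mul]
          rw [sum_sub_distrib, sum_const, card_univ, nsmul_eq_mul]
          have e3 : ∑ y : B i, (Pi.single y (1 : ℚ) : B i → ℚ) z = 1 := by
            simp [Pi.single_apply]
          rw [e3]
          ring
        · simp only [Pi.smul_apply, Pi.add_apply, Finset.sum_apply, Pi.single_eq_of_ne hi]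
          simp
      have e3 := R.add_mem (R.sum_mem (t := univ) fun y _ => h ⟨x, hx⟩ y) (hdetR j)
      rw [← e2] at e3
      have e4 : (Fintype.card (B j) : ℚ) ≠ 0 := by
        exact_mod_cast (Fintype.card_pos_iff.2 ⟨(⟨x, hx⟩ : B j)⟩).ne'
      exact (R.smul_mem_iff e4).1 e3
    obtain ⟨M, hM, m', hm', l, hl⟩ := e1
    apply hns M hM l
    rw [← hl]
    unfold mono
    rw [prod_eq_single j, prod_eq_single (⟨x, hx⟩ : B j)]
    · have e2 := hm' j ⟨x, hx⟩
      rw [Pi.single_eq_same, Pi.single_eq_same, mul_one] at e2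
      have e3 : m' j ⟨x, hx⟩ = M := by exact_mod_cast e2.symm
      rw [e3, zpow_natCast]
    · intro y _ hy
      have e2 := hm' j y
      rw [Pi.single_eq_same, Pi.single_eq_of_ne hy, mul_zero] at e2
      have e3 : m' j y = 0 := by exact_mod_cast e2.symm
      rw [e3, zpow_zero]
    · intro h
      exact absurd (mem_univ _) h
    · intro i _ hi
      apply prod_eq_one
      intro y _
      have e2 := hm' i y
      rw [Pi.single_eq_of_ne hi, Pi.zero_apply, mul_zero] at e2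
      have e3 : m' i y = 0 := by exact_mod_cast e2.symm
      rw [e3, zpow_zero]
    · intro h
      exact absurd (mem_univ _) h
  have h2' : ∃ g : G, (∀ i, i ≠ j → ∀ x : B i, g • x = x) ∧ ∃ x : B j, g • x ≠ x := by
    obtain ⟨σ, hσ, e1, x, hx, e2⟩ := h2 j
    refine ⟨⟨σ, hσ⟩, fun i hi x => Subtype.ext (e1 i hi x x.2), ⟨x, hx⟩, ?_⟩
    intro h
    exact e2 (congrArg Subtype.val h)
  have hmR : (fun j (x : B j) => (m j x : ℚ)) ∈ R := by
    refine ⟨N, hN, fun j x => (N : ℤ) * m j x, ?_, k, ?_⟩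
    · intro j x
      push_cast
      ring
    · rw [mono_smul h0, zpow_natCast, hm]
  have := rel_const (G := G) (fun j => B j) R hRG j (hirr j) h2' (h3 j) _ hmR x y
  exact_mod_cast this

end Rel

end Pool.Agent.L5helper29.AS
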