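import Pool.Agent.Y951.WP.Lg

/-!
# Critical values and the sums of the values of `f` at the roots of a monic polynomial

`T f h` is the sum of the values of `f` at the roots of `h`.  Here `f` has degree `n + 1`, prime to
the characteristic, and `h` is monic of degree `n`.
-/

set_option autoImplicit false

namespace Pool.Agent.L5helper29.AS

open Polynomial Finset
open Pool.Agent.Y951.WP

section

variable {F : Type*} [Field F]

/-- `t ^ n * g (1 / t)` as a power series -/
noncomputable def rf (n : ℕ) (g : F[X]) : PowerSeries F := ((reflect n g : F[X]) : PowerSeries F)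

lemma coeff_rf {n : ℕ} (g : F[X]) {k : ℕ} (hk : k ≤ n) :
    PowerSeries.coeff k (rf n g) = g.coeff (n - k) := by
  unfold rf
  rw [Polynomial.coeff_coe, coeff_reflect, revAt_le hk]

lemma coeff_rf_big {n : ℕ} {g : F[X]} (hg : g.natDegree ≤ n) {k : ℕ} (hk : n < k) :
    PowerSeries.coeff k (rf n g) = 0 := by
  unfold rf
  rw [Polynomial.coeff_coe, coeff_reflect, revAt_eq_self_of_lt hk]
  exact coeff_eq_zero_of_natDegree_lt (by omega)

lemma rf_add (n : ℕ) (g h : F[X]) : rf n (g + h) = rf n g + rf n h := by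
  unfold rf
  rw [reflect_add, Polynomial.coe_add]

lemma rf_C_mul (n : ℕ) (a : F) (g : F[X]) : rf n (C a * g) = PowerSeries.C a * rf n g := by
  unfold rf
  rw [reflect_C_mul, Polynomial.coe_mul, Polynomial.coe_C]

lemma rf_eq_rv {n : ℕ} {h : F[X]} (hn : h.natDegree = n) : rf n h = rv h := by
  unfold rf rv reverse
  rw [hn]

lemma rf_dvd {n k : ℕ} {g : F[X]} (hg : g.natDegree + k ≤ n) :
    (PowerSeries.X : PowerSeries F) ^ k ∣ rf n g := by
  rw [PowerSeries.X_pow_dvd_iff]
  intro m hm
  rw [coeff_rf g (by omega)]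
  exact coeff_eq_zero_of_natDegree_lt (by omega)

lemma derivative_dvd {k : ℕ} {u : PowerSeries F} (hu : (PowerSeries.X : PowerSeries F) ^ (k + 1) ∣ u) :
    (PowerSeries.X : PowerSeries F) ^ k ∣ PowerSeries.derivative F u := by
  rw [PowerSeries.X_pow_dvd_iff] at hu ⊢
  intro m hm
  rw [PowerSeries.coeff_derivative, hu (m + 1) (by omega), zero_mul]

/-- adding a polynomial of lower degree -/
lemma rv_add {n : ℕ} {h g : F[X]} (hh : h.Monic) (hn : h.natDegree = n) (hg : g.natDegree < n) :
    (h + g).Monic ∧ (h + g).natDegree = n ∧ rv (h + g) = rv h + rf n g := by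
  have hd : g.degree < h.degree := by
    rw [degree_eq_natDegree hh.ne_zero, hn]
    exact (degree_le_natDegree).trans_lt (by exact_mod_cast hg)
  have h1 : (h + g).Monic := hh.add_of_left hd
  have h2 : (h + g).natDegree = n := by
    rw [natDegree_add_eq_left_of_degree_lt hd, hn]
  refine ⟨h1, h2, ?_⟩
  rw [← rf_eq_rv h2, rf_add, rf_eq_rv hn]

/-- the functional `u ↦ ∑ f_{j+1} [t^j] u'` -/
lemma Dlem {f : F[X]} {n : ℕ} (hf : f.natDegree = n + 1) (u : PowerSeries F) :
    ∑ j ∈ range f.natDegree, f.coeff (j + 1) * PowerSeries.coeff j (PowerSeries.derivative F u) =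
      PowerSeries.coeff (n + 1) (rf n (derivative f) * u) := by
  have hder : (derivative f).natDegree ≤ n := (natDegree_derivative_le f).trans (by omega)
  rw [hf, PowerSeries.coeff_mul, Nat.sum_antidiagonal_eq_sum_range_succ
    (fun i j => PowerSeries.coeff i (rf n (derivative f)) * PowerSeries.coeff j u),
    Finset.sum_range_succ _ (n + 1), coeff_rf_big hder (Nat.lt_succ_self n), zero_mul, add_zero,
    ← Finset.sum_range_reflect]
  refine sum_congr rfl fun j hj => ?_
  rw [mem_range] at hj
  rw [coeff_rf _ (by omega : j ≤ n), coeff_derivative, PowerSeries.coeff_derivative]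
  have e1 : n + 1 - 1 - j + 1 = n - j + 1 := by omega
  have e2 : n + 1 - 1 - j = n - j := by omega
  have e3 : n + 1 - j = n - j + 1 := by omega
  rw [e1, e2, e3]
  push_cast
  ring

/-- the change of `T f` under a change of the polynomial -/
lemma T_change {f h h' : F[X]} {n : ℕ} (hn : h.natDegree = n) (hn' : h'.natDegree = n)
    (u v : PowerSeries F) (hu : lg h' - lg h = PowerSeries.derivative F u + v) (hf : f.natDegree = n + 1)
    (hv : (PowerSeries.X : PowerSeries F) ^ (n + 1) ∣ v) :
    T f h' = T f h - PowerSeries.coeff (n + 1) (rf n (derivative f) * u) := by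
  rw [← Dlem hf u]
  unfold T
  rw [hn, hn']
  have h1 : ∀ j ∈ range f.natDegree, f.coeff (j + 1) * PowerSeries.coeff j (lg h') =
      f.coeff (j + 1) * PowerSeries.coeff j (lg h) +
      f.coeff (j + 1) * PowerSeries.coeff j (PowerSeries.derivative F u) := by
    intro j hj
    rw [mem_range, hf] at hj
    have h2 : lg h' = lg h + PowerSeries.derivative F u + v := by
      rw [add_assoc, ← hu]
      ring
    rw [h2, map_add, map_add, PowerSeries.X_pow_dvd_iff.1 hv j hj, add_zero, mul_add]
  rw [sum_congr rfl h1, sum_add_distrib]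
  ring

/-- the logarithmic derivative of a product of power series -/
lemma lg_diff {n : ℕ} {h g : F[X]} (hh : h.Monic) (hn : h.natDegree = n) (hg : g.natDegree < n) :
    ∃ w r : PowerSeries F, w = rf n g * (rv h)⁻¹ ∧ (1 + w) * r = 1 ∧
      lg (h + g) - lg h = PowerSeries.derivative F w * r := by
  obtain ⟨h1, h2, h3⟩ := rv_add hh hn hg
  refine ⟨rf n g * (rv h)⁻¹, rv h * (rv (h + g))⁻¹, rfl, ?_, ?_⟩
  · have e1 := rv_inv hh
    have e2 := rv_inv h1
    calc (1 + rf n g * (rv h)⁻¹) * (rv h * (rv (h + g))⁻¹) =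
        (rv h + rf n g * (rv h * (rv h)⁻¹)) * (rv (h + g))⁻¹ := by ring
      _ = (rv h + rf n g) * (rv (h + g))⁻¹ := by rw [e1, mul_one]
      _ = 1 := by rw [← h3, e2]
  · have e1 := rv_inv hh
    have e2 := rv_inv h1
    set w := rf n g * (rv h)⁻¹ with hw
    have e3 : rv (h + g) = rv h * (1 + w) := by
      rw [h3, hw]
      calc rv h + rf n g = rv h + rf n g * (rv h * (rv h)⁻¹) := by rw [e1, mul_one]
        _ = _ := by ring
    have e4 : PowerSeries.derivative F (rv (h + g)) = PowerSeries.derivative F (rv h) * (1 + w) +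
        rv h * PowerSeries.derivative F w := by
      rw [e3, Derivation.leibniz, smul_eq_mul, smul_eq_mul, map_add]
      have : PowerSeries.derivative F (1 : PowerSeries F) = 0 := Derivation.map_one_eq_zero _
      rw [this, zero_add]
      ring
    unfold lg
    rw [e4]
    have e5 : (1 + w) * (rv (h + g))⁻¹ = (rv h)⁻¹ := by
      calc (1 + w) * (rv (h + g))⁻¹ = (1 + w) * (rv (h + g))⁻¹ * (rv h * (rv h)⁻¹) := by
            rw [e1, mul_one]
        _ = (rv h * (1 + w)) * (rv (h + g))⁻¹ * (rv h)⁻¹ := by ring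
        _ = _ := by rw [← e3, e2, one_mul]
    calc (PowerSeries.derivative F (rv h) * (1 + w) + rv h * PowerSeries.derivative F w) *
          (rv (h + g))⁻¹ - PowerSeries.derivative F (rv h) * (rv h)⁻¹ =
        PowerSeries.derivative F (rv h) * ((1 + w) * (rv (h + g))⁻¹) +
          rv h * PowerSeries.derivative F w * (rv (h + g))⁻¹ -
          PowerSeries.derivative F (rv h) * (rv h)⁻¹ := by ring
      _ = _ := by rw [e5]; ring

/-- **The sum of the values is affine linear in the low coefficients.** -/
theorem T_low {f h g : F[X]} {n : ℕ} (hf : f.natDegree = n + 1) (hh : h.Monic)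
    (hn : h.natDegree = n) (hg : 2 * g.natDegree + 2 ≤ n) :
    T f (h + g) = T f h -
      PowerSeries.coeff (n + 1) (rf n (derivative f) * (rf n g * (rv h)⁻¹)) := by
  obtain ⟨w, r, hw, hr, hd⟩ := lg_diff hh hn (by omega : g.natDegree < n)
  rw [← hw]
  have hwd : (PowerSeries.X : PowerSeries F) ^ (n - g.natDegree) ∣ w := by
    rw [hw]
    exact (rf_dvd (by omega)).mul_right _
  have hwd' : (PowerSeries.X : PowerSeries F) ^ (n - g.natDegree - 1) ∣
      PowerSeries.derivative F w := by
    apply derivative_dvd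
    rw [Nat.sub_add_cancel (by omega)]
    exact hwd
  have hr2 : r = 1 - w * r := by
    have : (1 + w) * r = r + w * r := by ring
    rw [this] at hr
    rw [← hr]
    ring
  refine T_change hn (rv_add hh hn (by omega)).2.1 w (-(PowerSeries.derivative F w * w * r)) ?_ hf ?_
  · rw [hd]
    nth_rewrite 1 [hr2]
    ring
  · rw [dvd_neg]
    refine Dvd.dvd.mul_right ?_ r
    have h1 : (PowerSeries.X : PowerSeries F) ^ (n + 1) ∣
        (PowerSeries.X : PowerSeries F) ^ (n - g.natDegree - 1) *
          (PowerSeries.X : PowerSeries F) ^ (n - g.natDegree) := by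
      rw [← pow_add]
      exact pow_dvd_pow _ (by omega)
    exact h1.trans (mul_dvd_mul hwd' hwd)

/-- the monic polynomial whose roots are the critical points of `f` -/
noncomputable def crit (f : F[X]) : F[X] :=
  C ((f.natDegree : F) * f.leadingCoeff)⁻¹ * derivative f

section crit
variable {f : F[X]} {n : ℕ} (hf : f.natDegree = n + 1) (hd : ((n + 1 : ℕ) : F) ≠ 0)

include hf hd

lemma lead_ne : (f.natDegree : F) * f.leadingCoeff ≠ 0 := by
  refine mul_ne_zero (by rw [hf]; exact hd) (leadingCoeff_ne_zero.2 ?_)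
  rintro rfl
  simp at hf

lemma der_coeff : (derivative f).coeff n = (f.natDegree : F) * f.leadingCoeff := by
  rw [coeff_derivative]
  unfold leadingCoeff
  rw [hf]
  push_cast
  ring

lemma der_natDegree : (derivative f).natDegree = n := by
  apply le_antisymm ((natDegree_derivative_le f).trans (by omega))
  apply le_natDegree_of_ne_zero
  rw [der_coeff hf hd]
  exact lead_ne hf hd

lemma crit_natDegree : (crit f).natDegree = n := by
  unfold crit
  rw [natDegree_C_mul (inv_ne_zero (lead_ne hf hd)), der_natDegree hf hd]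

lemma crit_monic : (crit f).Monic := by
  unfold Monic leadingCoeff
  rw [crit_natDegree hf hd]
  unfold crit
  rw [coeff_C_mul, der_coeff hf hd]
  exact inv_mul_cancel₀ (lead_ne hf hd)

lemma der_eq : derivative f = C ((f.natDegree : F) * f.leadingCoeff) * crit f := by
  unfold crit
  rw [← mul_assoc, ← C_mul, mul_inv_cancel₀ (lead_ne hf hd), C_1, one_mul]

lemma rf_der : rf n (derivative f) =
    PowerSeries.C ((f.natDegree : F) * f.leadingCoeff) * rv (crit f) := by
  rw [der_eq hf hd, rf_C_mul, rf_eq_rv (crit_natDegree hf hd)]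

/-- **Constancy**: if `h` agrees with the critical polynomial up to low degree, the sum of the
values of `f` at the roots of `h` is the sum of its critical values. -/
theorem T_const {g : F[X]} (hg : 2 * g.natDegree + 2 ≤ n) :
    T f (crit f + g) = T f (crit f) := by
  have hm := crit_monic hf hd
  rw [T_low hf hm (crit_natDegree hf hd) hg, rf_der hf hd]
  have h1 : PowerSeries.C ((f.natDegree : F) * f.leadingCoeff) * rv (crit f) *
      (rf n g * (rv (crit f))⁻¹) =
      PowerSeries.C ((f.natDegree : F) * f.leadingCoeff) * rf n g := by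
    calc _ = PowerSeries.C ((f.natDegree : F) * f.leadingCoeff) * rf n g *
          (rv (crit f) * (rv (crit f))⁻¹) := by ring
      _ = _ := by rw [rv_inv hm, mul_one]
  rw [h1, PowerSeries.coeff_C_mul, coeff_rf_big (by omega) (Nat.lt_succ_self n), mul_zero, sub_zero]

/-- the middle coefficient, in odd degree `n = 2 m + 1` -/
theorem T_mid {m : ℕ} (hm : n = 2 * m + 1) (h2 : (2 : F) ≠ 0) (s : F) :
    T f (crit f + C s * X ^ m) =
      T f (crit f) + (f.natDegree : F) * f.leadingCoeff / 2 * s ^ 2 := by
  have hc := crit_monic hf hd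
  have hcn := crit_natDegree hf hd
  have hg : (C s * X ^ m : F[X]).natDegree ≤ m := natDegree_C_mul_X_pow_le _ _
  obtain ⟨w, r, hw, hr, hdd⟩ := lg_diff hc hcn (by omega : (C s * X ^ m : F[X]).natDegree < n)
  have hwd : (PowerSeries.X : PowerSeries F) ^ (m + 1) ∣ w := by
    rw [hw]
    exact (rf_dvd (by omega)).mul_right _
  have hwd' : (PowerSeries.X : PowerSeries F) ^ m ∣ PowerSeries.derivative F w :=
    derivative_dvd hwd
  have hr2 : r = 1 - w * r := by
    have : (1 + w) * r = r + w * r := by ring
    rw [this] at hr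
    rw [← hr]
    ring
  have hr3 : r = 1 - w + w ^ 2 * r := by
    conv_lhs => rw [hr2, hr2]
    ring
  have key := T_change hcn (rv_add hc hcn (by omega : (C s * X ^ m : F[X]).natDegree < n)).2.1
    (w - PowerSeries.C (2 : F)⁻¹ * w ^ 2)
    (PowerSeries.derivative F w * w ^ 2 * r) ?_ hf ?_
  · rw [key, mul_sub, map_sub]
    have e0 := rv_inv hc
    have e1 : rf n (C s * X ^ m : F[X]) = PowerSeries.C s * PowerSeries.X ^ (m + 1) := by
      unfold rf
      rw [reflect_C_mul_X_pow, revAt_le (by omega), Polynomial.coe_mul, Polynomial.coe_C,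
        Polynomial.coe_pow, Polynomial.coe_X]
      congr 2
      omega
    have e2 : rf n (derivative f) * w = PowerSeries.C ((f.natDegree : F) * f.leadingCoeff) *
        rf n (C s * X ^ m : F[X]) := by
      rw [rf_der hf hd, hw]
      calc _ = PowerSeries.C ((f.natDegree : F) * f.leadingCoeff) * rf n (C s * X ^ m : F[X]) *
          (rv (crit f) * (rv (crit f))⁻¹) := by ring
        _ = _ := by rw [e0, mul_one]
    have e3 : rf n (derivative f) * (PowerSeries.C (2 : F)⁻¹ * w ^ 2) =
        PowerSeries.X ^ (n + 1) * (PowerSeries.C ((f.natDegree : F) * f.leadingCoeff * 2⁻¹ * s ^ 2) *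
          (rv (crit f))⁻¹) := by
      have : rf n (derivative f) * (PowerSeries.C (2 : F)⁻¹ * w ^ 2) =
          (rf n (derivative f) * w) * (PowerSeries.C (2 : F)⁻¹ * w) := by ring
      rw [this, e2, hw, e1]
      have e4 : n + 1 = (m + 1) + (m + 1) := by omega
      rw [e4, pow_add]
      simp only [map_mul, map_pow]
      ring
    rw [e2, e3, PowerSeries.coeff_C_mul, coeff_rf_big (by omega) (Nat.lt_succ_self n), mul_zero,
      zero_sub, sub_neg_eq_add]
    congr 1
    have e5 := PowerSeries.coeff_X_pow_mul (PowerSeries.C ((f.natDegree : F) * f.leadingCoeff * 2⁻¹ * s ^ 2) *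
          (rv (crit f))⁻¹) (n + 1) 0
    rw [zero_add] at e5
    rw [e5, PowerSeries.coeff_zero_eq_constantCoeff, map_mul, PowerSeries.constantCoeff_C,
      PowerSeries.constantCoeff_inv, rv_const hc]
    ring
  · rw [hdd]
    have e1 : PowerSeries.derivative F (w - PowerSeries.C (2 : F)⁻¹ * w ^ 2) =
        PowerSeries.derivative F w - w * PowerSeries.derivative F w := by
      rw [map_sub, Derivation.leibniz, PowerSeries.derivative_C, smul_zero, add_zero,
        Derivation.leibniz_pow, pow_one, smul_eq_mul, smul_eq_mul, nsmul_eq_mul]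
      congr 1
      have e2 : PowerSeries.C (2 : F)⁻¹ * ((2 : ℕ) : PowerSeries F) = 1 := by
        rw [Nat.cast_ofNat, show (2 : PowerSeries F) = PowerSeries.C (2 : F) from (map_ofNat _ 2).symm,
          ← map_mul, inv_mul_cancel₀ h2, map_one]
      calc PowerSeries.C (2 : F)⁻¹ * (((2 : ℕ) : PowerSeries F) * (w * PowerSeries.derivative F w)) =
          (PowerSeries.C (2 : F)⁻¹ * ((2 : ℕ) : PowerSeries F)) * (w * PowerSeries.derivative F w) := by
            ring
        _ = _ := by rw [e2, one_mul]
    rw [e1]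
    conv_lhs => rw [hr3]
    ring
  · refine Dvd.dvd.mul_right ?_ r
    have h1 : (PowerSeries.X : PowerSeries F) ^ (n + 1) ∣
        (PowerSeries.X : PowerSeries F) ^ m * ((PowerSeries.X : PowerSeries F) ^ (m + 1)) ^ 2 := by
      rw [← pow_mul, ← pow_add]
      exact pow_dvd_pow _ (by omega)
    exact h1.trans (mul_dvd_mul hwd' (pow_dvd_pow_of_dvd hwd 2))

/-- the middle coefficient and the low coefficients, in odd degree `n = 2 m + 1` -/
theorem T_mid_low {m : ℕ} (hm : n = 2 * m + 1) (h2 : (2 : F) ≠ 0) (s : F) {g : F[X]}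
    (hg : g = 0 ∨ g.natDegree < m) :
    T f (crit f + C s * X ^ m + g) =
      T f (crit f) + (f.natDegree : F) * f.leadingCoeff / 2 * s ^ 2 := by
  rcases hg with rfl | hg
  · rw [add_zero, T_mid hf hd hm h2 s]
  have hc := crit_monic hf hd
  have hcn := crit_natDegree hf hd
  have hsm : (C s * X ^ m : F[X]).natDegree ≤ m := natDegree_C_mul_X_pow_le _ _
  obtain ⟨h1, h3, h4⟩ := rv_add hc hcn (by omega : (C s * X ^ m : F[X]).natDegree < n)
  rw [T_low hf h1 h3 (by omega), T_mid hf hd hm h2 s, rf_der hf hd]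
  have e1 := rv_inv h1
  set h := crit f + C s * X ^ m with hh
  have e2 : rv (crit f) = rv h - rf n (C s * X ^ m : F[X]) := by
    rw [h4]; ring
  have e3 : PowerSeries.C ((f.natDegree : F) * f.leadingCoeff) * rv (crit f) *
      (rf n g * (rv h)⁻¹) = PowerSeries.C ((f.natDegree : F) * f.leadingCoeff) * rf n g -
      PowerSeries.C ((f.natDegree : F) * f.leadingCoeff) *
        (rf n (C s * X ^ m : F[X]) * rf n g * (rv h)⁻¹) := by
    rw [e2]
    calc _ = PowerSeries.C ((f.natDegree : F) * f.leadingCoeff) * rf n g * (rv h * (rv h)⁻¹) -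
      PowerSeries.C ((f.natDegree : F) * f.leadingCoeff) *
        (rf n (C s * X ^ m : F[X]) * rf n g * (rv h)⁻¹) := by ring
      _ = _ := by rw [e1, mul_one]
  have e4 : (PowerSeries.X : PowerSeries F) ^ (n + 2) ∣
      rf n (C s * X ^ m : F[X]) * rf n g * (rv h)⁻¹ := by
    refine Dvd.dvd.mul_right ?_ _
    have e5 : (PowerSeries.X : PowerSeries F) ^ (n + 2) ∣
        (PowerSeries.X : PowerSeries F) ^ (m + 1) * (PowerSeries.X : PowerSeries F) ^ (m + 2) := by
      rw [← pow_add]
      exact pow_dvd_pow _ (by omega)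
    exact e5.trans (mul_dvd_mul (rf_dvd (by omega)) (rf_dvd (by omega)))
  rw [e3, map_sub, PowerSeries.coeff_C_mul, PowerSeries.coeff_C_mul,
    coeff_rf_big (by omega) (Nat.lt_succ_self n), mul_zero,
    PowerSeries.X_pow_dvd_iff.1 e4 (n + 1) (by omega), mul_zero, sub_zero, sub_zero]

end crit

end

end Pool.Agent.L5helper29.AS
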